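import Pool.Agent.N915.ML.Fin

/-! # Characters `χ` with `χ 2 = 1` and sums along `2 ^ n x` -/

set_option autoImplicit false

namespace Pool.Agent.N440.MT

open Finset Filter Topology
open Pool.Agent.N915.ML
open Pool.Agent.H807R2.Dav (ee norm_ee ee_add ee_zero ee_int ee_add_int ee_pow ee_eq)
open Pool.Agent.H373R2.T7 (muR muR_abs)

lemma sum_mul_mod (q : ℕ) (hq : 1 ≤ q) (u : ℕ) (hu : Nat.Coprime u q) (g : ℕ → ℂ)
    (hg : ∀ k, g (k % q) = g k) : ∑ k ∈ range q, g (u * k) = ∑ k ∈ range q, g k := by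
  have hinj : Set.InjOn (fun k => u * k % q) (range q : Set ℕ) := by
    intro a ha b hb h
    have ha' : a < q := by simpa using ha
    have hb' : b < q := by simpa using hb
    have h1 : u * a ≡ u * b [MOD q] := h
    have h2 : a ≡ b [MOD q] := Nat.ModEq.cancel_left_of_coprime (by rw [Nat.coprime_comm] at hu; exact hu) h1
    unfold Nat.ModEq at h2
    rwa [Nat.mod_eq_of_lt ha', Nat.mod_eq_of_lt hb'] at h2
  have himg : (range q).image (fun k => u * k % q) = range q := by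
    apply Finset.eq_of_subset_of_card_le
    · intro a ha
      rw [mem_image] at ha
      obtain ⟨k, _, rfl⟩ := ha
      exact mem_range.2 (Nat.mod_lt _ (by omega))
    · rw [card_image_of_injOn hinj]
  conv_rhs => rw [← himg]
  rw [sum_image hinj]
  refine sum_congr rfl fun k _ => ?_
  exact (hg _).symm

section
variable {q : ℕ} (χ : DirichletCharacter ℂ q)

lemma ee_per (q : ℕ) (hq : 1 ≤ q) (j k : ℕ) : ee (-((j : ℝ) * ((k % q : ℕ) : ℝ) / q)) =
    ee (-((j : ℝ) * k / q)) := by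
  have hq0 : (q : ℝ) ≠ 0 := by exact_mod_cast (by omega : q ≠ 0)
  have h : (k : ℝ) = ((k / q : ℕ) : ℝ) * q + ((k % q : ℕ) : ℝ) := by
    have := Nat.div_add_mod' k q
    exact_mod_cast this.symm
  have e : -((j : ℝ) * k / q) = -((j : ℝ) * ((k % q : ℕ) : ℝ) / q) +
      ((-(j * (k / q : ℕ) : ℤ) : ℤ) : ℝ) := by
    generalize k % q = r at h
    generalize k / q = t at h
    rw [h]
    push_cast
    field_simp
    ring
  rw [e, ee_add_int]

lemma cf_mod (hq : 1 ≤ q) (j : ℕ) : cf χ (j % q) = cf χ j := by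
  unfold cf
  congr 1
  refine sum_congr rfl fun k _ => ?_
  congr 1
  have h := ee_per q hq k j
  rw [show (((j % q : ℕ) : ℝ) * k / q) = ((k : ℝ) * ((j % q : ℕ) : ℝ) / q) by ring, h]
  congr 2
  ring

lemma cf_mul (hq : 1 ≤ q) (u : ℕ) (hu : Nat.Coprime u q) (j : ℕ) :
    cf χ j = χ (u : ZMod q) * cf χ (u * j) := by
  unfold cf
  have h := sum_mul_mod q hq u hu (fun k => χ (k : ZMod q) * ee (-((j : ℝ) * k / q))) (fun k => by
    rw [ee_per q hq j k, ZMod.natCast_mod])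
  rw [← h]
  rw [mul_left_comm]
  congr 1
  rw [mul_sum]
  refine sum_congr rfl fun k _ => ?_
  push_cast
  rw [map_mul]
  have e : (j : ℝ) * ((u : ℝ) * k) / q = (u : ℝ) * j * k / q := by ring
  rw [e]
  ring

lemma psi_per (q : ℕ) (hq : 1 ≤ q) (Y : ℝ) (k : ℕ) :
    psi (Y + ((k % q : ℕ) : ℝ) / q) = psi (Y + (k : ℝ) / q) := by
  have hq0 : (q : ℝ) ≠ 0 := by exact_mod_cast (by omega : q ≠ 0)
  have h : (k : ℝ) = ((k / q : ℕ) : ℝ) * q + ((k % q : ℕ) : ℝ) := by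
    have := Nat.div_add_mod' k q
    exact_mod_cast this.symm
  have e : Y + (k : ℝ) / q = Y + ((k % q : ℕ) : ℝ) / q + (((k / q : ℕ) : ℤ) : ℝ) := by
    generalize k % q = r at h
    generalize k / q = t at h
    rw [h]
    push_cast
    field_simp
    ring
  rw [e, psi_add_int]

lemma Phi_pow (hq : 1 ≤ q) (h2 : Nat.Coprime 2 q) (hχ : χ 2 = 1) (n : ℕ) (y : ℝ) :
    Phi χ ((2 : ℝ) ^ n * y) = ∑ j ∈ range q, cf χ j * ((psi ((2 : ℝ) ^ n * (y + j / q)) : ℝ) : ℂ) := by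
  have hu : Nat.Coprime (2 ^ n) q := Nat.Coprime.pow_left n h2
  have h := sum_mul_mod q hq (2 ^ n) hu
    (fun j => cf χ j * ((psi ((2 : ℝ) ^ n * y + j / q) : ℝ) : ℂ)) (fun k => by
      rw [cf_mod χ hq, psi_per q hq])
  unfold Phi
  rw [← h]
  refine sum_congr rfl fun j _ => ?_
  have e1 : cf χ (2 ^ n * j) = cf χ j := by
    rw [cf_mul χ hq (2 ^ n) hu j]
    have : χ ((2 ^ n : ℕ) : ZMod q) = 1 := by
      push_cast
      rw [map_pow, hχ, one_pow]
    rw [this, one_mul]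
  rw [e1]
  congr 3
  push_cast
  ring

/-- Weyl sums from the functions `Phi` -/
lemma LL_sum' (hq : 1 ≤ q) (w : ℝ) (hw : 0 < w) : ∃ M : ℕ, 1 ≤ M ∧ ∃ δ : ℝ, 0 < δ ∧
    ∀ {ι : Type} (S : Finset ι) (u : ι → ℝ),
      (∀ m : ℕ, 1 ≤ m → m ≤ M → ‖∑ n ∈ S, Phi χ (m * u n)‖ ≤ δ * S.card) →
      ‖∑ n ∈ S, LL χ (u n)‖ ≤ w * S.card := by
  obtain ⟨M0, h0, h⟩ := unif_conv χ hq
  have hlog : Tendsto (fun M : ℕ => AA χ ^ 2 * (3 / Real.log M)) atTop (𝓝 0) := by
    have h1 : Tendsto (fun M : ℕ => Real.log M) atTop atTop :=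
      Real.tendsto_log_atTop.comp tendsto_natCast_atTop_atTop
    have h2 := (h1.inv_tendsto_atTop).const_mul (AA χ ^ 2 * 3)
    rw [mul_zero] at h2
    refine h2.congr fun M => ?_
    simp only [Pi.inv_apply]
    ring
  obtain ⟨M, hM1, hM2⟩ := ((hlog.eventually (gt_mem_nhds (show (0 : ℝ) < w / 2 by positivity))).and
    (eventually_ge_atTop M0)).exists
  have hM0 : (0 : ℝ) < M := by exact_mod_cast (by omega : 0 < M)
  refine ⟨M, by omega, w / 2 / M, by positivity, fun S u hS => ?_⟩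
  have h1 : ‖∑ n ∈ S, SS χ M (u n)‖ ≤ w / 2 * S.card := by
    unfold SS
    rw [sum_comm]
    refine (norm_sum_le _ _).trans ?_
    have h2 : ∀ m ∈ Icc 1 M, ‖∑ n ∈ S, (1 / (m : ℂ)) * (((muR m : ℝ) : ℂ) * χ (m : ZMod q) *
        Phi χ (m * u n))‖ ≤ w / 2 / M * S.card := by
      intro m hm
      rw [mem_Icc] at hm
      have h2 : ∑ n ∈ S, (1 / (m : ℂ)) * (((muR m : ℝ) : ℂ) * χ (m : ZMod q) *
        Phi χ (m * u n)) = ((1 / (m : ℂ)) * ((muR m : ℝ) : ℂ) * χ (m : ZMod q)) *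
          ∑ n ∈ S, Phi χ (m * u n) := by
        rw [mul_sum]
        refine sum_congr rfl fun n _ => ?_
        ring
      rw [h2, norm_mul]
      have h3 : ‖(1 / (m : ℂ)) * ((muR m : ℝ) : ℂ) * χ (m : ZMod q)‖ ≤ 1 := by
        rw [norm_mul, norm_mul, norm_div, norm_one, Complex.norm_natCast, Complex.norm_real,
          Real.norm_eq_abs]
        have hm1 : (1 : ℝ) ≤ m := by exact_mod_cast hm.1
        have h4 : 1 / (m : ℝ) ≤ 1 := by
          rw [div_le_one (by linarith)]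
          exact hm1
        have h5 : 1 / (m : ℝ) * |muR m| ≤ 1 * 1 :=
          mul_le_mul h4 (muR_abs m) (abs_nonneg _) (by norm_num)
        calc 1 / (m : ℝ) * |muR m| * ‖χ (m : ZMod q)‖ ≤ (1 * 1) * 1 :=
              mul_le_mul h5 (norm_chi χ _) (norm_nonneg _) (by norm_num)
          _ = 1 := by norm_num
      calc _ ≤ 1 * ‖∑ n ∈ S, Phi χ (m * u n)‖ := mul_le_mul_of_nonneg_right h3 (norm_nonneg _)
        _ = ‖∑ n ∈ S, Phi χ (m * u n)‖ := one_mul _
        _ ≤ _ := hS m hm.1 hm.2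
    refine (sum_le_sum h2).trans ?_
    rw [sum_const, Nat.card_Icc, Nat.add_sub_cancel, nsmul_eq_mul]
    apply le_of_eq
    field_simp
  have h3 : ‖∑ n ∈ S, (LL χ (u n) - SS χ M (u n))‖ ≤ w / 2 * S.card := by
    refine (norm_sum_le _ _).trans ?_
    have h4 : ∀ n ∈ S, ‖LL χ (u n) - SS χ M (u n)‖ ≤ w / 2 := fun n _ =>
      ((h M hM2).2 (u n)).trans hM1.le
    refine (sum_le_sum h4).trans ?_
    rw [sum_const, nsmul_eq_mul]
    exact le_of_eq (by ring)
  rw [sum_sub_distrib] at h3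
  have h4 : ∑ n ∈ S, LL χ (u n) = (∑ n ∈ S, LL χ (u n) - ∑ n ∈ S, SS χ M (u n)) +
      ∑ n ∈ S, SS χ M (u n) := by ring
  rw [h4]
  refine (norm_add_le _ _).trans ?_
  linarith

end

lemma sep {G : Type} [CommGroup G] [Finite G] (a : G) (ha : a ≠ 1) : ∃ φ : G →* ℂˣ, φ a ≠ 1 := by
  have : NeZero (Monoid.exponent G) := ⟨Monoid.exponent_ne_zero_of_finite⟩
  exact CommGroup.exists_apply_ne_one_of_hasEnoughRootsOfUnity G ℂ ha

/-- an odd character with `χ 2 = 1` -/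
lemma exists_odd' (d : ℕ) (hd : 1 ≤ d) (h2 : Nat.Coprime 2 d) (hneg : ∀ s : ℕ, ¬ d ∣ 2 ^ s + 1) :
    ∃ χ : DirichletCharacter ℂ d, χ (-1) = -1 ∧ χ 2 = 1 := by
  have : NeZero d := ⟨by omega⟩
  set two : (ZMod d)ˣ := ZMod.unitOfCoprime 2 h2 with htwo
  set H : Subgroup (ZMod d)ˣ := Subgroup.zpowers two with hH
  have hnot : (-1 : (ZMod d)ˣ) ∉ H := by
    intro h
    rw [hH, Subgroup.mem_zpowers_iff] at h
    obtain ⟨k, hk⟩ := h
    have hfin : IsOfFinOrder two := isOfFinOrder_of_finite two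
    have h3 : (-1 : (ZMod d)ˣ) ∈ Submonoid.powers two := by
      rw [hfin.mem_powers_iff_mem_zpowers, Subgroup.mem_zpowers_iff]
      exact ⟨k, hk⟩
    rw [Submonoid.mem_powers_iff] at h3
    obtain ⟨s, hs⟩ := h3
    apply hneg s
    have h4 : ((two ^ s : (ZMod d)ˣ) : ZMod d) = ((-1 : (ZMod d)ˣ) : ZMod d) := by rw [hs]
    rw [Units.val_pow_eq_pow_val, htwo, ZMod.coe_unitOfCoprime, Units.val_neg, Units.val_one] at h4
    rw [← ZMod.natCast_eq_zero_iff]
    push_cast at h4 ⊢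
    rw [h4]
    ring
  have h1 : (QuotientGroup.mk' H) (-1) ≠ 1 := by
    intro h
    exact hnot ((QuotientGroup.eq_one_iff _).1 h)
  have hfq : Finite ((ZMod d)ˣ ⧸ H) := inferInstance
  obtain ⟨φ, hφ⟩ := sep (G := (ZMod d)ˣ ⧸ H) _ h1
  set χ : DirichletCharacter ℂ d := MulChar.ofUnitHom (φ.comp (QuotientGroup.mk' H)) with hχ
  have hval : ∀ u : (ZMod d)ˣ, χ (u : ZMod d) = (φ (QuotientGroup.mk' H u) : ℂˣ) := by
    intro u
    rw [hχ, MulChar.ofUnitHom_coe]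
    rfl
  refine ⟨χ, ?_, ?_⟩
  · have h5 : χ (-1) ≠ 1 := by
      intro h6
      have h7 := hval (-1)
      rw [Units.val_neg, Units.val_one, h6] at h7
      apply hφ
      exact Units.ext h7.symm
    rcases χ.even_or_odd with h | h
    · exact absurd h h5
    · exact h
  · have h7 := hval two
    have h8 : (two : ZMod d) = 2 := by
      rw [htwo, ZMod.coe_unitOfCoprime]
      norm_num
    rw [h8] at h7
    have h9 : (QuotientGroup.mk' H) two = 1 :=
      (QuotientGroup.eq_one_iff _).2 (Subgroup.mem_zpowers two)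
    rw [h7, h9, map_one]
    rfl

end Pool.Agent.N440.MT
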