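import Pool.Agent.N440.MT.Crit

/-! # Cosine sums suffice along `2 ^ n x` -/

set_option autoImplicit false

namespace Pool.Agent.N440.MT

open Finset Filter Topology
open Pool.Agent.N915.ML
open Pool.Agent.H534R3.UDist (UD Weyl ud_of_weyl)
open Pool.Agent.H807R2.Dav (ee norm_ee ee_add ee_zero ee_int ee_add_int ee_pow ee_eq)

lemma ee_re (t : ℝ) : (ee t).re = Real.cos (2 * Real.pi * t) := by
  rw [ee_eq, Complex.exp_ofReal_mul_I_re]

lemma ee_im (t : ℝ) : (ee t).im = Real.sin (2 * Real.pi * t) := by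
  rw [ee_eq, Complex.exp_ofReal_mul_I_im]

lemma norm_sq_sum (L : ℕ) (θ : ℕ → ℝ) : ‖∑ i ∈ range L, ee (θ i)‖ ^ 2 =
    ∑ i ∈ range L, ∑ i' ∈ range L, Real.cos (2 * Real.pi * (θ i - θ i')) := by
  rw [← Complex.normSq_eq_norm_sq, Complex.normSq_apply]
  have h1 : (∑ i ∈ range L, ee (θ i)).re = ∑ i ∈ range L, Real.cos (2 * Real.pi * θ i) := by
    rw [Complex.re_sum]
    exact sum_congr rfl fun i _ => ee_re _
  have h2 : (∑ i ∈ range L, ee (θ i)).im = ∑ i ∈ range L, Real.sin (2 * Real.pi * θ i) := by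
    rw [Complex.im_sum]
    exact sum_congr rfl fun i _ => ee_im _
  rw [h1, h2, sum_mul_sum, sum_mul_sum, ← sum_add_distrib]
  refine sum_congr rfl fun i _ => ?_
  rw [← sum_add_distrib]
  refine sum_congr rfl fun j _ => ?_
  rw [mul_sub, Real.cos_sub]

/-- if all cosine means vanish then all exponential means vanish -/
theorem exp_of_cos (x : ℝ) (hcos : ∀ h : ℕ, 1 ≤ h → Tendsto (fun N : ℕ =>
    (∑ n ∈ range N, Real.cos (2 * Real.pi * (h * (x * (2 : ℝ) ^ n)))) / (N : ℝ)) atTop (𝓝 0)) (h : ℕ)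
    (hh : 1 ≤ h) :
    Tendsto (fun N : ℕ => ‖∑ n ∈ range N, ee (h * (x * (2 : ℝ) ^ n))‖ / (N : ℝ)) atTop (𝓝 0) := by
  set f : ℕ → ℂ := fun n => ee (h * (x * (2 : ℝ) ^ n)) with hf
  have hf1 : ∀ n, ‖f n‖ = 1 := fun n => norm_ee _
  rw [Metric.tendsto_atTop]
  intro ε hε
  obtain ⟨L, hL⟩ := exists_nat_gt (8 / ε ^ 2)
  have hL0 : (0 : ℝ) < L := lt_trans (by positivity) hL
  have hL1 : 1 ≤ L := by exact_mod_cast hL0
  -- the correlations
  have hcorr : ∀ i i' : ℕ, i ≠ i' → Tendsto (fun N : ℕ => (∑ n ∈ range N,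
      Real.cos (2 * Real.pi * (h * (x * (2 : ℝ) ^ (n + i)) - h * (x * (2 : ℝ) ^ (n + i'))))) / (N : ℝ))
      atTop (𝓝 0) := by
    have hlt : ∀ i i' : ℕ, i' < i → Tendsto (fun N : ℕ => (∑ n ∈ range N,
      Real.cos (2 * Real.pi * (h * (x * (2 : ℝ) ^ (n + i)) - h * (x * (2 : ℝ) ^ (n + i'))))) / (N : ℝ))
      atTop (𝓝 0) := by
      intro i i' hlt
      have h1 : 2 ^ i' < 2 ^ i := Nat.pow_lt_pow_right (by norm_num) hlt
      have h2 := hcos (h * (2 ^ i - 2 ^ i')) (Nat.mul_pos (by omega) (by omega))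
      refine h2.congr fun N => ?_
      congr 1
      refine sum_congr rfl fun n _ => ?_
      congr 2
      push_cast [h1.le]
      ring
    intro i i' hne
    rcases lt_or_gt_of_ne hne with h1 | h1
    · refine (hlt i' i h1).congr fun N => ?_
      congr 1
      refine sum_congr rfl fun n _ => ?_
      rw [← Real.cos_neg]
      congr 1
      ring
    · exact hlt i i' h1
  have hT : Tendsto (fun N : ℕ => 1 / (L : ℝ) ^ 2 * ∑ i ∈ range L, ∑ i' ∈ range L,
      (∑ n ∈ range N, Real.cos (2 * Real.pi * (h * (x * (2 : ℝ) ^ (n + i)) -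
        h * (x * (2 : ℝ) ^ (n + i'))))) / (N : ℝ)) atTop
      (𝓝 (1 / (L : ℝ) ^ 2 * ∑ i ∈ range L, ∑ i' ∈ range L, if i = i' then 1 else 0)) := by
    refine Tendsto.const_mul _ (tendsto_finsetSum _ fun i _ => tendsto_finsetSum _ fun i' _ => ?_)
    by_cases hii : i = i'
    · rw [if_pos hii, hii]
      refine tendsto_const_nhds.congr' ?_
      filter_upwards [eventually_gt_atTop 0] with N hN
      have hN' : (N : ℝ) ≠ 0 := by positivity
      simp [hN']
    · rw [if_neg hii]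
      exact hcorr i i' hii
  have hval : 1 / (L : ℝ) ^ 2 * ∑ i ∈ range L, ∑ i' ∈ range L, (if i = i' then (1 : ℝ) else 0) = 1 / L := by
    have : ∀ i ∈ range L, ∑ i' ∈ range L, (if i = i' then (1 : ℝ) else 0) = 1 := by
      intro i hi
      rw [sum_ite_eq, if_pos hi]
    rw [sum_congr rfl this, sum_const, card_range, nsmul_eq_mul, mul_one]
    field_simp
  rw [hval] at hT
  have hT2 := hT.eventually (gt_mem_nhds (by
    rw [div_lt_div_iff_of_pos_right hL0]
    norm_num : 1 / (L : ℝ) < 2 / L))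
  obtain ⟨N₁, hN₁⟩ := exists_nat_gt (2 * L / (ε / 2))
  obtain ⟨N₀, hN₀⟩ := eventually_atTop.1 (hT2.and ((eventually_gt_atTop 0).and (eventually_ge_atTop N₁)))
  refine ⟨N₀, fun N hN => ?_⟩
  obtain ⟨h4, h5, h6⟩ := hN₀ N hN
  have hN0 : (0 : ℝ) < N := by exact_mod_cast h5
  rw [Real.dist_eq, sub_zero, abs_of_nonneg (by positivity), div_lt_iff₀ hN0]
  set P : ℕ → ℂ := fun n => 1 / L * ∑ i ∈ range L, f (n + i) with hP
  have hLC : (L : ℂ) ≠ 0 := by exact_mod_cast (by omega : L ≠ 0)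
  have h7 : ‖∑ n ∈ range N, f n - ∑ n ∈ range N, P n‖ ≤ 2 * L := by
    have e1 : ∑ n ∈ range N, f n - ∑ n ∈ range N, P n =
        1 / L * ∑ i ∈ range L, (∑ n ∈ range N, f n - ∑ n ∈ range N, f (n + i)) := by
      rw [sum_sub_distrib, sum_const, card_range, nsmul_eq_mul]
      simp only [hP]
      rw [← mul_sum, sum_comm]
      field_simp
    rw [e1, norm_mul]
    have e2 : ‖(1 / L : ℂ)‖ = 1 / L := by simp
    rw [e2]
    have e3 : ‖∑ i ∈ range L, (∑ n ∈ range N, f n - ∑ n ∈ range N, f (n + i))‖ ≤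
        L * (2 * L) := by
      refine (norm_sum_le_of_le (f := fun i => ∑ n ∈ range N, f n - ∑ n ∈ range N, f (n + i))
        (n := fun _ => 2 * (L : ℝ)) _ fun i hi => ?_).trans (le_of_eq ?_)
      · refine (Pool.Agent.N915.WT.shift_bound f (fun n => (hf1 n).le) N _).trans ?_
        have : (i : ℝ) ≤ L := by exact_mod_cast (mem_range.1 hi).le
        linarith
      · rw [sum_const, card_range, nsmul_eq_mul]
    calc 1 / (L : ℝ) * _ ≤ 1 / (L : ℝ) * (L * (2 * L)) := mul_le_mul_of_nonneg_left e3 (by positivity)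
      _ = 2 * L := by field_simp
  have h8 : ‖∑ n ∈ range N, P n‖ ^ 2 ≤ N ^ 2 * (2 / L) := by
    have e1 : ‖∑ n ∈ range N, P n‖ ^ 2 ≤ N * ∑ n ∈ range N, ‖P n‖ ^ 2 := by
      calc ‖∑ n ∈ range N, P n‖ ^ 2 ≤ (∑ n ∈ range N, ‖P n‖) ^ 2 :=
            pow_le_pow_left₀ (norm_nonneg _) (norm_sum_le _ _) 2
        _ ≤ (range N).card * ∑ n ∈ range N, ‖P n‖ ^ 2 := sq_sum_le_card_mul_sum_sq
        _ = _ := by rw [card_range]
    have e3 : ∀ n, ‖P n‖ ^ 2 = 1 / (L : ℝ) ^ 2 * ∑ i ∈ range L, ∑ i' ∈ range L,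
        Real.cos (2 * Real.pi * (h * (x * (2 : ℝ) ^ (n + i)) - h * (x * (2 : ℝ) ^ (n + i')))) := by
      intro n
      simp only [hP, hf]
      rw [norm_mul, mul_pow, norm_sq_sum L (fun i => h * (x * (2 : ℝ) ^ (n + i)))]
      congr 1
      simp
    have e2 : ∑ n ∈ range N, ‖P n‖ ^ 2 = N * (1 / (L : ℝ) ^ 2 * ∑ i ∈ range L, ∑ i' ∈ range L,
      (∑ n ∈ range N, Real.cos (2 * Real.pi * (h * (x * (2 : ℝ) ^ (n + i)) -
        h * (x * (2 : ℝ) ^ (n + i'))))) / (N : ℝ)) := by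
      rw [sum_congr rfl fun n _ => e3 n, ← mul_sum, mul_left_comm]
      congr 1
      rw [sum_comm, mul_sum]
      refine sum_congr rfl fun i _ => ?_
      rw [sum_comm, mul_sum]
      refine sum_congr rfl fun i' _ => ?_
      field_simp
    rw [e2] at e1
    have e4 : (N : ℝ) * (1 / (L : ℝ) ^ 2 * ∑ i ∈ range L, ∑ i' ∈ range L,
      (∑ n ∈ range N, Real.cos (2 * Real.pi * (h * (x * (2 : ℝ) ^ (n + i)) -
        h * (x * (2 : ℝ) ^ (n + i'))))) / (N : ℝ)) ≤ N * (2 / L) :=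
      mul_le_mul_of_nonneg_left h4.le hN0.le
    calc ‖∑ n ∈ range N, P n‖ ^ 2 ≤ _ := e1
      _ ≤ N * (N * (2 / L)) := mul_le_mul_of_nonneg_left e4 hN0.le
      _ = _ := by ring
  have h9 : ‖∑ n ∈ range N, P n‖ ≤ N * (ε / 2) := by
    have e1 : (N : ℝ) ^ 2 * (2 / L) ≤ (N * (ε / 2)) ^ 2 := by
      rw [mul_pow]
      apply mul_le_mul_of_nonneg_left _ (by positivity)
      rw [div_le_iff₀ hL0]
      rw [div_lt_iff₀ (by positivity)] at hL
      nlinarith
    exact (sq_le_sq₀ (norm_nonneg _) (by positivity)).1 (h8.trans e1)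
  have h10 : 2 * (L : ℝ) < ε / 2 * N := by
    have e1 : (N₁ : ℝ) ≤ N := by exact_mod_cast h6
    rw [div_lt_iff₀ (by positivity)] at hN₁
    nlinarith
  have h11 : ‖∑ n ∈ range N, f n‖ ≤ ‖∑ n ∈ range N, f n - ∑ n ∈ range N, P n‖ +
      ‖∑ n ∈ range N, P n‖ := by
    have := norm_add_le (∑ n ∈ range N, f n - ∑ n ∈ range N, P n) (∑ n ∈ range N, P n)
    rwa [sub_add_cancel] at this
  linarith

/-- equidistribution from the means of `Phi` for one odd character -/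
theorem ud_of_phi_odd {d : ℕ} (hd : 1 ≤ d) (χ : DirichletCharacter ℂ d) (hχ : χ (-1) = -1) (x : ℝ)
    (h : ∀ m : ℕ, 1 ≤ m →
      Tendsto (fun N : ℕ => ‖∑ n ∈ range N, Phi χ ((2 : ℝ) ^ n * (m * x))‖ / (N : ℝ)) atTop (𝓝 0)) :
    UD fun n => x * (2 : ℝ) ^ n := by
  have hcos : ∀ h : ℕ, 1 ≤ h → Tendsto (fun N : ℕ =>
      (∑ n ∈ range N, Real.cos (2 * Real.pi * (h * (x * (2 : ℝ) ^ n)))) / (N : ℝ)) atTop (𝓝 0) := by
    intro k hk
    rw [Metric.tendsto_atTop]
    intro ε hε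
    obtain ⟨M, hM, δ, hδ, H⟩ := LL_sum' χ hd (ε / 8) (by positivity)
    have hall : ∀ᶠ N : ℕ in atTop, ∀ m ∈ Icc 1 M,
        ‖∑ n ∈ range N, Phi χ ((2 : ℝ) ^ n * ((m * k : ℕ) * x))‖ / (N : ℝ) < δ := by
      rw [eventually_all_finset]
      intro m hm
      exact (h (m * k) (Nat.mul_pos (mem_Icc.1 hm).1 (by omega))).eventually (gt_mem_nhds hδ)
    obtain ⟨N0, hN0⟩ := eventually_atTop.1 (hall.and (eventually_gt_atTop 0))
    refine ⟨N0, fun N hN => ?_⟩
    obtain ⟨h3, h4⟩ := hN0 N hN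
    have hNR : (0 : ℝ) < N := by exact_mod_cast h4
    have h5 := H (range N) (fun n => k * (x * (2 : ℝ) ^ n)) (fun m hm hmM => by
      have h6 := h3 m (mem_Icc.2 ⟨hm, hmM⟩)
      rw [div_lt_iff₀ hNR] at h6
      rw [card_range]
      have e : ∀ n : ℕ, (m : ℝ) * (k * (x * (2 : ℝ) ^ n)) = (2 : ℝ) ^ n * ((m * k : ℕ) * x) :=
        fun n => by push_cast; ring
      simp only [e]
      exact h6.le)
    rw [card_range] at h5
    have e1 : ∀ y : ℝ, ((Real.cos (2 * Real.pi * y) : ℝ) : ℂ) = (Real.pi / Complex.I) * LL χ y := by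
      intro y
      rw [ee_cos]
      unfold LL
      rw [hχ]
      have hpi : (Real.pi : ℂ) ≠ 0 := by exact_mod_cast Real.pi_pos.ne'
      have hI : Complex.I ≠ 0 := Complex.I_ne_zero
      field_simp
      ring
    have e2 : |∑ n ∈ range N, Real.cos (2 * Real.pi * (k * (x * (2 : ℝ) ^ n)))| ≤
        4 * ‖∑ n ∈ range N, LL χ (k * (x * (2 : ℝ) ^ n))‖ := by
      have e3 : ((∑ n ∈ range N, Real.cos (2 * Real.pi * (k * (x * (2 : ℝ) ^ n))) : ℝ) : ℂ) =
          (Real.pi / Complex.I) * ∑ n ∈ range N, LL χ (k * (x * (2 : ℝ) ^ n)) := by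
        rw [Complex.ofReal_sum, mul_sum]
        exact sum_congr rfl fun n _ => e1 _
      rw [← Real.norm_eq_abs, ← Complex.norm_real, e3, norm_mul]
      apply mul_le_mul_of_nonneg_right _ (norm_nonneg _)
      rw [norm_div, Complex.norm_I, div_one, Complex.norm_real, Real.norm_of_nonneg Real.pi_pos.le]
      linarith [Real.pi_lt_four]
    rw [Real.dist_eq, sub_zero, abs_div, abs_of_pos hNR, div_lt_iff₀ hNR]
    have h7 : 0 < ε * N := by positivity
    linarith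
  apply ud_of_weyl
  intro k hk
  have h1 := exp_of_cos x hcos k hk
  refine h1.congr fun N => ?_
  congr 2

/-- reflection of simply normal numbers -/
lemma sn_neg (y : ℝ) (h : SN y) : SN (-y) := by
  -- no dyadic rationals
  have hne : ∀ n : ℕ, Int.fract ((2 : ℝ) ^ n * y) ≠ 0 := by
    intro n h0
    have h1 := sn_shift y n h
    have e : ∀ i : ℕ, psi ((2 : ℝ) ^ i * ((2 : ℝ) ^ n * y)) = -1 / 2 := by
      intro i
      have h2 := Int.floor_add_fract ((2 : ℝ) ^ n * y)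
      rw [h0, add_zero] at h2
      rw [← h2]
      have e2 : (2 : ℝ) ^ i * (⌊(2 : ℝ) ^ n * y⌋ : ℝ) = 0 + ((2 ^ i * ⌊(2 : ℝ) ^ n * y⌋ : ℤ) : ℝ) := by
        push_cast
        ring
      rw [e2, psi_add_int]
      unfold psi
      simp
      norm_num
    unfold SN at h1
    simp only [e, sum_const, card_range, nsmul_eq_mul] at h1
    have h3 : Tendsto (fun N : ℕ => (N : ℝ) * (-1 / 2) / N) atTop (𝓝 (-1 / 2)) := by
      refine tendsto_const_nhds.congr' ?_
      filter_upwards [eventually_gt_atTop 0] with N hN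
      have hN' : (N : ℝ) ≠ 0 := by exact_mod_cast hN.ne'
      field_simp
    have h4 := tendsto_nhds_unique h1 h3
    norm_num at h4
  unfold SN at h ⊢
  have h1 := h.neg
  rw [neg_zero] at h1
  refine h1.congr fun N => ?_
  rw [← neg_div, ← sum_neg_distrib]
  congr 1
  refine sum_congr rfl fun n _ => ?_
  unfold psi
  rw [mul_neg, Int.fract_neg (hne n)]
  ring

/-- one translate of the multiples of both signs -/
theorem normal_of_one (d : ℕ) (hd : 1 ≤ d) (h2 : Nat.Coprime 2 d)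
    (hneg : ∀ s : ℕ, ¬ d ∣ 2 ^ s + 1)
    (hcov : ∀ j : ℕ, 1 ≤ j → j < d → ∃ i : ℕ, 2 ^ i ≡ j [MOD d] ∨ d ∣ 2 ^ i + j) (x : ℝ)
    (h : ∀ m : ℤ, m ≠ 0 → SimplyNormal (m * x + 1 / d)) : NormalTwo x := by
  have hd0 : (d : ℝ) ≠ 0 := by exact_mod_cast (by omega : d ≠ 0)
  obtain ⟨χ, hχ, hχ2⟩ := exists_odd' d hd h2 hneg
  choose! i hi using hcov
  set K := ∑ j ∈ range d, i j with hK
  rw [normal_iff_ud]
  apply ud_shift _ K
  have e : (fun n : ℕ => x * (2 : ℝ) ^ (n + K)) = fun n => ((2 : ℝ) ^ K * x) * (2 : ℝ) ^ n := by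
    funext n
    rw [pow_add]
    ring
  rw [e]
  apply ud_of_phi_odd hd χ hχ
  intro m hm
  -- the coefficient at zero
  have hc0 : cf χ 0 = 0 := by
    have h4 := cf_mul χ hd (d - 1) (by
      have : Nat.Coprime (d - 1) (d - 1 + 1) := by simp
      rwa [Nat.sub_add_cancel hd] at this) 0
    have h5 : χ ((d - 1 : ℕ) : ZMod d) = -1 := by
      have : ((d - 1 : ℕ) : ZMod d) = -1 := by
        push_cast [hd]
        simp
      rw [this, hχ]
    rw [h5, mul_zero] at h4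
    have h6 : 2 * cf χ 0 = 0 := by linear_combination h4
    simpa using h6
  have hval : ∀ j < d, j ≠ 0 → SN (m * ((2 : ℝ) ^ K * x) + j / d) := by
    intro j hj hj0
    have hiK : i j ≤ K := single_le_sum (f := i) (fun _ _ => Nat.zero_le _) (mem_range.2 hj)
    have e3 : (2 : ℝ) ^ K = (2 : ℝ) ^ (i j) * 2 ^ (K - i j) := by
      rw [← pow_add]
      congr 1
      omega
    rcases hi j (by omega) hj with h3 | h3
    · have h4 := (sn_iff _).1 (h (m * 2 ^ (K - i j)) (by positivity))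
      have h5 := sn_shift _ (i j) h4
      have h6 : (d : ℤ) ∣ (2 : ℤ) ^ (i j) - j := by
        have := (Nat.modEq_iff_dvd.1 h3.symm)
        push_cast at this
        exact this
      obtain ⟨l, hl⟩ := h6
      have hlR : (2 : ℝ) ^ (i j) - j = d * l := by exact_mod_cast hl
      have h7 := sn_add_int _ (-l) h5
      have e2 : (2 : ℝ) ^ (i j) * (((m * 2 ^ (K - i j) : ℤ) : ℝ) * x + 1 / d) + ((-l : ℤ) : ℝ) =
          m * ((2 : ℝ) ^ K * x) + j / d := by
        have e4 : (j : ℝ) = (2 : ℝ) ^ (i j) - d * l := by linarith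
        rw [e3, e4]
        push_cast
        field_simp
        ring
      rw [e2] at h7
      exact h7
    · have h4 := (sn_iff _).1 (h (-(m * 2 ^ (K - i j))) (by
        have : (0 : ℤ) < m * 2 ^ (K - i j) := by positivity
        omega))
      have h5 := sn_neg _ (sn_shift _ (i j) h4)
      have h6 : (d : ℤ) ∣ (2 : ℤ) ^ (i j) + j := by exact_mod_cast h3
      obtain ⟨l, hl⟩ := h6
      have hlR : (2 : ℝ) ^ (i j) + j = d * l := by exact_mod_cast hl
      have h7 := sn_add_int _ l h5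
      have e2 : -((2 : ℝ) ^ (i j) * (((-(m * 2 ^ (K - i j)) : ℤ) : ℝ) * x + 1 / d)) + ((l : ℤ) : ℝ) =
          m * ((2 : ℝ) ^ K * x) + j / d := by
        have e4 : (j : ℝ) = d * l - (2 : ℝ) ^ (i j) := by linarith
        rw [e3, e4]
        push_cast
        field_simp
        ring
      rw [e2] at h7
      exact h7
  -- the means of `Phi χ`
  have e1 : ∀ N : ℕ, ∑ n ∈ range N, Phi χ ((2 : ℝ) ^ n * (m * ((2 : ℝ) ^ K * x))) =
      ∑ j ∈ range d, cf χ j *
      ((∑ n ∈ range N, psi ((2 : ℝ) ^ n * (m * ((2 : ℝ) ^ K * x) + j / d)) : ℝ) : ℂ) := by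
    intro N
    rw [sum_congr rfl fun n _ => Phi_pow χ hd h2 hχ2 n (m * ((2 : ℝ) ^ K * x)), sum_comm]
    refine sum_congr rfl fun j _ => ?_
    push_cast
    rw [mul_sum]
  have h8 : Tendsto (fun N : ℕ => ∑ j ∈ range d, cf χ j *
      (((∑ n ∈ range N, psi ((2 : ℝ) ^ n * (m * ((2 : ℝ) ^ K * x) + j / d))) / N : ℝ) : ℂ)) atTop
        (𝓝 (∑ j ∈ range d, 0)) := by
    refine tendsto_finsetSum _ fun j hj => ?_
    by_cases hj0 : j = 0
    · subst hj0
      rw [hc0]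
      simp only [zero_mul]
      exact tendsto_const_nhds
    · have h10 : Tendsto (fun N : ℕ => cf χ j *
            (((∑ n ∈ range N, psi ((2 : ℝ) ^ n * (m * ((2 : ℝ) ^ K * x) + j / d))) / N : ℝ) : ℂ)) atTop
            (𝓝 (cf χ j * ((0 : ℝ) : ℂ))) :=
          (Tendsto.comp (Complex.continuous_ofReal.tendsto 0) (hval j (mem_range.1 hj) hj0)).const_mul _
      simpa using h10
  rw [sum_const_zero] at h8
  have h11 := h8.norm
  rw [norm_zero] at h11
  refine h11.congr fun N => ?_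
  rw [e1 N]
  have hc : ∀ A : ℝ, ((A / N : ℝ) : ℂ) = (A : ℂ) / (N : ℂ) := fun A => by push_cast; rfl
  simp only [hc]
  rw [← Complex.norm_natCast N, ← norm_div, Finset.sum_div (range d) _ (N : ℂ)]
  congr 1
  refine sum_congr rfl fun j _ => ?_
  rw [mul_div_assoc]

end Pool.Agent.N440.MT
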