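import Pool.Agent.N440.MT.Seq

/-! # Normality in base two and translates of the multiples -/

set_option autoImplicit false

namespace Pool.Agent.N440.MT

open Finset Filter Topology
open Pool.Agent.N915.ML
open Pool.Agent.H534R3.UDist (UD Weyl ud_of_weyl)

/-- the number of `1 ≤ i ≤ N` for which the word `w` of length `k` occurs at the `i`-th binary place -/
noncomputable def occ (x : ℝ) (k : ℕ) (w : ℕ → ℤ) (N : ℕ) : ℕ :=
  ((Icc 1 N).filter fun i => ∀ j < k, ⌊x * 2 ^ (i + j)⌋ % 2 = w j).card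

/-- normal in base two -/
def NormalTwo (x : ℝ) : Prop := ∀ (k : ℕ) (w : ℕ → ℤ), (∀ j < k, w j = 0 ∨ w j = 1) →
  Tendsto (fun N : ℕ => (occ x k w N : ℝ) / (N : ℝ)) atTop (𝓝 (1 / 2 ^ k))

lemma count_two (x : ℝ) (k : ℕ) (w : ℕ → ℤ) (N : ℕ) : count 2 x k w N = occ x k w N := by
  unfold count occ digit
  push_cast
  rfl

lemma isWord_iff (k : ℕ) (w : ℕ → ℤ) : IsWord 2 k w ↔ ∀ j < k, w j = 0 ∨ w j = 1 := by
  unfold IsWord
  refine forall_congr' fun j => forall_congr' fun _ => ?_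
  push_cast
  omega

lemma normal_iff_ud (x : ℝ) : NormalTwo x ↔ UD fun n => x * (2 : ℝ) ^ n := by
  constructor
  · intro h
    have h1 := ud_of_normal 2 (by norm_num) x (fun k _ w hw => by
      have h2 := h k w ((isWord_iff k w).1 hw)
      simp only [count_two]
      push_cast
      exact h2)
    push_cast at h1
    exact h1
  · intro h k w hw
    have h1 := count_tendsto 2 k (by norm_num) x (by push_cast; exact h) w ((isWord_iff k w).2 hw)
    simp only [count_two] at h1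
    push_cast at h1
    exact h1

lemma ones_occ (y : ℝ) (N : ℕ) : ones y N = occ y 1 (fun _ => 1) N := by
  unfold ones occ
  congr 1
  ext i
  simp

lemma simplyNormal_of_normal (y : ℝ) (h : NormalTwo y) : SimplyNormal y := by
  have h1 := h 1 (fun _ => 1) (fun _ _ => Or.inr rfl)
  unfold SimplyNormal
  simp only [ones_occ]
  simpa using h1

/-- rational affine images of normal numbers are normal (Wall) -/
theorem normal_affine (x : ℝ) (h : NormalTwo x) (m : ℕ) (hm : 1 ≤ m) (r : ℚ) :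
    NormalTwo (m * x + r) := by
  rw [normal_iff_ud] at h ⊢
  have h1 : UD fun n => ((2 : ℕ) : ℝ) ^ n * x := by
    have e : (fun n : ℕ => ((2 : ℕ) : ℝ) ^ n * x) = fun n => x * (2 : ℝ) ^ n := by
      funext n
      push_cast
      ring
    rw [e]
    exact h
  have h2 := Pool.Agent.N915.WT.wall (le_refl 2) h1 (m : ℚ) r (by exact_mod_cast (by omega : m ≠ 0))
  have e : (fun n : ℕ => ((2 : ℕ) : ℝ) ^ n * (((m : ℚ) : ℝ) * x + r)) =
      fun n => (m * x + r) * (2 : ℝ) ^ n := by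
    funext n
    push_cast
    ring
  rw [e] at h2
  exact ud_of_weyl _ h2

/-- all translates by multiples of `1 / d` -/
theorem normal_of_translates (d : ℕ) (hd : 1 ≤ d) (h2 : Nat.Coprime 2 d)
    (hneg : ∀ s : ℕ, ¬ d ∣ 2 ^ s + 1) (x : ℝ)
    (h : ∀ m : ℕ, 1 ≤ m → ∀ a : ℕ, a < d → SimplyNormal (m * x + a / d)) : NormalTwo x := by
  obtain ⟨χ, hχ, hχ2⟩ := exists_odd' d hd h2 hneg
  rw [normal_iff_ud]
  have hone : (1 : DirichletCharacter ℂ d) 2 = 1 := by
    have : IsUnit (2 : ZMod d) := by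
      have := (ZMod.unitOfCoprime 2 h2).isUnit
      simpa using this
    exact MulChar.one_apply this
  apply ud_of_phi hd χ hχ x
  intro m hm
  have hy : SN (d * (m * x)) := by
    have h3 := (sn_iff _).1 (h (d * m) (Nat.mul_pos (by omega) (by omega)) 0 (by omega))
    push_cast at h3
    rw [zero_div, add_zero, mul_assoc] at h3
    exact h3
  exact ⟨phi_tendsto hd h2 _ hone (m * x) 0 hy fun j hj => Or.inr ((sn_iff _).1 (h m hm j hj)),
    phi_tendsto hd h2 _ hχ2 (m * x) 0 hy fun j hj => Or.inr ((sn_iff _).1 (h m hm j hj))⟩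

lemma ud_shift (u : ℕ → ℝ) (K : ℕ) (h : UD fun n => u (n + K)) : UD u := by
  intro s t h0 h1 h2
  have h3 := h s t h0 h1 h2
  rw [← tendsto_add_atTop_iff_nat K]
  have h4 : Tendsto (fun N : ℕ => ((N : ℝ)) / ((N + K : ℕ) : ℝ)) atTop (𝓝 1) := by
    have h5 : Tendsto (fun N : ℕ => (1 + (K : ℝ) / N)⁻¹) atTop (𝓝 (1 + 0)⁻¹) :=
      ((tendsto_const_div_atTop_nhds_zero_nat (K : ℝ)).const_add 1).inv₀ (by norm_num)
    rw [add_zero, inv_one] at h5
    refine h5.congr' ?_
    filter_upwards [eventually_gt_atTop 0] with N hN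
    have hN' : (N : ℝ) ≠ 0 := by exact_mod_cast hN.ne'
    push_cast
    field_simp
  have h6 : Tendsto (fun N : ℕ => ((((range K).filter fun n => s ≤ Int.fract (u n) ∧
      Int.fract (u n) < t).card : ℕ) : ℝ) / ((N + K : ℕ) : ℝ)) atTop (𝓝 0) :=
    (tendsto_const_div_atTop_nhds_zero_nat _).comp (tendsto_add_atTop_nat K)
  have h7 := (h3.mul h4).add h6
  rw [mul_one, add_zero] at h7
  refine h7.congr' ?_
  filter_upwards [eventually_gt_atTop 0] with N hN
  have hN' : (N : ℝ) ≠ 0 := by exact_mod_cast hN.ne'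
  have e : ((range (N + K)).filter fun n => s ≤ Int.fract (u n) ∧ Int.fract (u n) < t).card =
      ((range N).filter fun n => s ≤ Int.fract (u (n + K)) ∧ Int.fract (u (n + K)) < t).card +
      ((range K).filter fun n => s ≤ Int.fract (u n) ∧ Int.fract (u n) < t).card := by
    rw [card_filter, card_filter, card_filter, Nat.add_comm N K, sum_range_add, Nat.add_comm]
    congr 1
    refine sum_congr rfl fun n _ => ?_
    rw [Nat.add_comm K n]
  rw [e]
  push_cast
  field_simp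

/-- two translates -/
theorem normal_of_two (d : ℕ) (hd : 1 ≤ d) (h2 : Nat.Coprime 2 d)
    (hneg : ∀ s : ℕ, ¬ d ∣ 2 ^ s + 1)
    (hcov : ∀ j : ℕ, 1 ≤ j → j < d → ∃ i : ℕ, 2 ^ i ≡ j [MOD d] ∨ d ∣ 2 ^ i + j) (x : ℝ)
    (h : ∀ m : ℕ, 1 ≤ m → SimplyNormal (m * x) ∧ SimplyNormal (m * x + 1 / d)) : NormalTwo x := by
  have hd0 : (d : ℝ) ≠ 0 := by exact_mod_cast (by omega : d ≠ 0)
  obtain ⟨χ, hχ, hχ2⟩ := exists_odd' d hd h2 hneg
  have hone : (1 : DirichletCharacter ℂ d) 2 = 1 := by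
    have : IsUnit (2 : ZMod d) := by
      have := (ZMod.unitOfCoprime 2 h2).isUnit
      simpa using this
    exact MulChar.one_apply this
  choose! i hi using hcov
  set K := ∑ j ∈ range d, i j with hK
  rw [normal_iff_ud]
  apply ud_shift _ K
  have e : (fun n : ℕ => x * (2 : ℝ) ^ (n + K)) = fun n => ((2 : ℝ) ^ K * x) * (2 : ℝ) ^ n := by
    funext n
    rw [pow_add]
    ring
  rw [e]
  apply ud_of_phi hd χ hχ
  intro m hm
  have hy : SN (d * (m * ((2 : ℝ) ^ K * x))) := by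
    have h3 := (sn_iff _).1 (h (d * (m * 2 ^ K))
      (Nat.mul_pos (by omega) (Nat.mul_pos (by omega) (by positivity)))).1
    push_cast at h3
    convert h3 using 1
    ring
  -- the values of the coefficients
  have hval : ∀ χ' : DirichletCharacter ℂ d, χ' 2 = 1 → ∀ j < d,
      cf χ' j = cf χ' (d - 1) ∨ SN (m * ((2 : ℝ) ^ K * x) + j / d) := by
    intro χ' hχ' j hj
    rcases Nat.eq_zero_or_pos j with hj0 | hj0
    · right
      subst hj0
      have h3 := (sn_iff _).1 (h (m * 2 ^ K) (Nat.mul_pos (by omega) (by positivity))).1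
      push_cast at h3 ⊢
      rw [zero_div, add_zero]
      convert h3 using 1
      ring
    rcases hi j hj0 hj with h3 | h3
    · right
      have hiK : i j ≤ K := single_le_sum (f := i) (fun _ _ => Nat.zero_le _) (mem_range.2 hj)
      have h4 := (sn_iff _).1 (h (m * 2 ^ (K - i j)) (Nat.mul_pos (by omega) (by positivity))).2
      have h5 := sn_shift _ (i j) h4
      -- `2 ^ i = j + d l`
      have h6 : (d : ℤ) ∣ (2 : ℤ) ^ (i j) - j := by
        have := (Nat.modEq_iff_dvd.1 h3.symm)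
        push_cast at this
        exact this
      obtain ⟨l, hl⟩ := h6
      have hlR : (2 : ℝ) ^ (i j) - j = d * l := by exact_mod_cast hl
      have h7 := sn_add_int _ (-l) h5
      have e2 : (2 : ℝ) ^ (i j) * (((m * 2 ^ (K - i j) : ℕ) : ℝ) * x + 1 / d) + ((-l : ℤ) : ℝ) =
          m * ((2 : ℝ) ^ K * x) + j / d := by
        have e3 : (2 : ℝ) ^ K = (2 : ℝ) ^ (i j) * 2 ^ (K - i j) := by
          rw [← pow_add]
          congr 1
          omega
        have e4 : (j : ℝ) = (2 : ℝ) ^ (i j) - d * l := by linarith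
        rw [e3, e4]
        push_cast
        field_simp
        ring
      rw [e2] at h7
      exact h7
    · left
      have h4 := cf_mul χ' hd (2 ^ i j) (Nat.Coprime.pow_left _ h2) (d - 1)
      have h5 : χ' ((2 ^ i j : ℕ) : ZMod d) = 1 := by
        push_cast
        rw [map_pow, hχ', one_pow]
      rw [h5, one_mul] at h4
      rw [h4]
      -- `2 ^ i (d - 1) ≡ j`
      have h6 : 2 ^ i j * (d - 1) ≡ j [MOD d] := by
        rw [← ZMod.natCast_eq_natCast_iff]
        have h7 : ((2 ^ i j + j : ℕ) : ZMod d) = 0 := (ZMod.natCast_eq_zero_iff _ _).2 h3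
        push_cast [hd] at h7 ⊢
        have h8 : (2 : ZMod d) ^ i j = -j := eq_neg_of_add_eq_zero_left h7
        rw [h8]
        simp
      have h7 : cf χ' (2 ^ i j * (d - 1)) = cf χ' j := by
        rw [← cf_mod χ' hd, ← cf_mod χ' hd j]
        congr 1
      exact h7.symm
  exact ⟨phi_tendsto hd h2 _ hone _ _ hy (hval _ hone), phi_tendsto hd h2 _ hχ2 _ _ hy (hval _ hχ2)⟩

/-- the criterion at one stage -/
theorem stage_two (d : ℕ) (hd : 1 ≤ d) (h2 : Nat.Coprime 2 d) (hneg : ∀ s : ℕ, ¬ d ∣ 2 ^ s + 1)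
    (ε : ℝ) (hε : 0 < ε) : ∃ Q : ℕ, 1 ≤ Q ∧ ∃ δ : ℝ, 0 < δ ∧ ∃ N₀ : ℕ, ∀ (x : ℝ) (N : ℕ), N₀ ≤ N →
      (∀ m : ℕ, 1 ≤ m → m ≤ Q → ∀ a : ℕ, a < d → |(ones (m * x + a / d) N : ℝ) - N / 2| ≤ δ * N) →
      ∀ (k : ℕ) (w : ℕ → ℤ), (∀ j < k, w j = 0 ∨ w j = 1) →
        |(occ x k w N : ℝ) - N / 2 ^ k| ≤ ε * N := by
  obtain ⟨χ, hχ, hχ2⟩ := exists_odd' d hd h2 hneg
  have hone : (1 : DirichletCharacter ℂ d) 2 = 1 := by
    have : IsUnit (2 : ZMod d) := by
      have := (ZMod.unitOfCoprime 2 h2).isUnit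
      simpa using this
    exact MulChar.one_apply this
  obtain ⟨Q, hQ, δ, hδ, H⟩ := crit' hd χ hχ ε hε
  set A : ℝ := AA (1 : DirichletCharacter ℂ d) + AA χ + 1 with hA
  have hA1 := AA_nonneg (1 : DirichletCharacter ℂ d)
  have hA2 := AA_nonneg χ
  have hA0 : 0 < A := by positivity
  obtain ⟨N₀, hN₀⟩ := exists_nat_gt (1 / (δ / (2 * A)))
  refine ⟨Q, hQ, δ / (2 * A), by positivity, N₀, fun x N hN h k w hw => ?_⟩
  have hNR : 1 ≤ δ / (2 * A) * N := by
    have h3 : (N₀ : ℝ) ≤ N := by exact_mod_cast hN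
    rw [div_lt_iff₀ (by positivity)] at hN₀
    have h4 : δ / (2 * A) * (N₀ : ℝ) ≤ δ / (2 * A) * N :=
      mul_le_mul_of_nonneg_left h3 (by positivity)
    linarith
  have hB : ∀ m : ℕ, 1 ≤ m → m ≤ Q → ∀ a < d,
      |∑ n ∈ range N, psi ((2 : ℝ) ^ n * (m * x + a / d))| ≤ δ / A * N := by
    intro m hm hmQ a ha
    have h3 := sum_psi_bound (m * x + a / d) N
    have h4 := h m hm hmQ a ha
    have h5 : δ / A * (N : ℝ) = δ / (2 * A) * N + δ / (2 * A) * N := by
      field_simp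
      ring
    linarith
  have h1 := H (range N) (fun n => x * (2 : ℝ) ^ n) (fun m hm hmQ => by
    have e : ∀ n : ℕ, (m : ℝ) * (x * (2 : ℝ) ^ n) = (2 : ℝ) ^ n * (m * x) := fun n => by ring
    simp only [e]
    rw [card_range]
    have g1 := Phi_bound hd h2 (1 : DirichletCharacter ℂ d) hone (m * x) N _ (hB m hm hmQ)
    have g2 := Phi_bound hd h2 χ hχ2 (m * x) N _ (hB m hm hmQ)
    have g3 : ∀ c : ℝ, 0 ≤ c → c ≤ A → c * (δ / A * N) ≤ δ * N := by
      intro c hc hcA
      have h5 : c * (δ / A * N) = c / A * (δ * N) := by ring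
      rw [h5]
      have h6 : c / A ≤ 1 := (div_le_one hA0).2 hcA
      have h7 : 0 ≤ δ * (N : ℝ) := by positivity
      nlinarith
    exact ⟨g1.trans (g3 _ hA1 (by linarith)), g2.trans (g3 _ hA2 (by linarith))⟩)
  have hw' := (isWord_iff k w).2 hw
  have hv := val_bounds 2 w k hw'
  have hP : (0 : ℝ) < ((2 ^ k : ℕ) : ℝ) := by positivity
  have h3 := h1 ((val 2 w k : ℝ) / (2 ^ k : ℕ)) (((val 2 w k : ℝ) + 1) / (2 ^ k : ℕ))
    (div_nonneg (by exact_mod_cast hv.1) hP.le)
    (div_lt_div_of_pos_right (by linarith) hP) (by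
      rw [div_le_one hP]
      have : val 2 w k + 1 ≤ ((2 : ℕ) : ℤ) ^ k := hv.2
      exact_mod_cast this)
  have h4 := count_eq 2 (by norm_num) x k w hw' N
  rw [count_two] at h4
  have e1 : (fun n : ℕ => x * ((2 : ℕ) : ℝ) ^ n) = fun n => x * (2 : ℝ) ^ n := by
    funext n
    push_cast
    rfl
  rw [e1] at h4
  rw [← h4, card_range] at h3
  have e : (((val 2 w k : ℝ) + 1) / (2 ^ k : ℕ) - (val 2 w k : ℝ) / (2 ^ k : ℕ)) * N =
      N / 2 ^ k := by
    push_cast
    ring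
  rw [e] at h3
  exact h3

end Pool.Agent.N440.MT
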