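import Pool.Agent.N440.MT.Sharp

/-! # The translates of the multiples are simply normal -/

set_option autoImplicit false

namespace Pool.Agent.N440.MT

open Finset Filter Topology
open Pool.Agent.N915.ML
open Pool.Agent.H534R3.UDist (UD Weyl ud_of_weyl)

lemma hf_abs (y : ℝ) : |hf y| ≤ 1 / 2 := by
  unfold hf
  split_ifs <;> norm_num

/-- from blocks to all `N` -/
lemma tendsto_blocks (f : ℕ → ℝ) (hf : ∀ n, |f n| ≤ 1) (P : ℕ) (hP : 1 ≤ P)
    (h : Tendsto (fun I : ℕ => (∑ n ∈ range (P * I), f n) / (I : ℝ)) atTop (𝓝 0)) :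
    Tendsto (fun N : ℕ => (∑ n ∈ range N, f n) / (N : ℝ)) atTop (𝓝 0) := by
  have hdiv : Tendsto (fun N : ℕ => N / P) atTop atTop := Nat.tendsto_div_const_atTop (by omega)
  have h1 := (h.comp hdiv).norm
  rw [norm_zero] at h1
  have h2 : Tendsto (fun N : ℕ => (P : ℝ) / N) atTop (𝓝 0) := tendsto_const_div_atTop_nhds_zero_nat _
  have h3 := h1.add h2
  rw [add_zero] at h3
  refine squeeze_zero_norm' ?_ h3
  filter_upwards [eventually_ge_atTop P] with N hN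
  have hI : 1 ≤ N / P := (Nat.one_le_div_iff (by omega)).2 hN
  have hN0 : (0 : ℝ) < N := by exact_mod_cast (by omega : 0 < N)
  have hI0 : (0 : ℝ) < ((N / P : ℕ) : ℝ) := by exact_mod_cast hI
  simp only [Function.comp]
  rw [norm_div, norm_div, Real.norm_eq_abs, Real.norm_eq_abs, Real.norm_eq_abs, Real.norm_eq_abs,
    abs_of_pos hN0, abs_of_pos hI0]
  have hsplit : ∑ n ∈ range N, f n = ∑ n ∈ range (P * (N / P)), f n +
      ∑ n ∈ range (N % P), f (P * (N / P) + n) := by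
    rw [← sum_range_add, Nat.div_add_mod]
  have h4 : |∑ n ∈ range (N % P), f (P * (N / P) + n)| ≤ P := by
    refine (abs_sum_le_sum_abs _ _).trans ?_
    refine (sum_le_sum fun n _ => hf _).trans ?_
    rw [sum_const, card_range, nsmul_eq_mul, mul_one]
    exact_mod_cast (Nat.mod_lt _ (by omega)).le
  have h5 : |∑ n ∈ range N, f n| ≤ |∑ n ∈ range (P * (N / P)), f n| + P := by
    rw [hsplit]
    exact (abs_add_le _ _).trans (by linarith)
  have h6 : ((N / P : ℕ) : ℝ) ≤ N := by exact_mod_cast Nat.div_le_self _ _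
  calc |∑ n ∈ range N, f n| / N ≤ (|∑ n ∈ range (P * (N / P)), f n| + P) / N := by gcongr
    _ = |∑ n ∈ range (P * (N / P)), f n| / N + P / N := by rw [add_div]
    _ ≤ |∑ n ∈ range (P * (N / P)), f n| / ((N / P : ℕ) : ℝ) + P / N := by gcongr

lemma sum_blocks (f : ℕ → ℝ) (t : ℕ) (I : ℕ) : ∑ n ∈ range (2 * t * I), f n =
    ∑ s ∈ range t, ∑ i ∈ range I, (f (t * (2 * i) + s) + f (t * (2 * i + 1) + s)) := by
  induction I with
  | zero => simp
  | succ I ih =>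
    have e : 2 * t * (I + 1) = 2 * t * I + (t + t) := by ring
    rw [e, sum_range_add, ih]
    simp only [sum_range_succ]
    rw [sum_add_distrib]
    congr 1
    rw [sum_range_add, sum_add_distrib]
    congr 1
    · refine sum_congr rfl fun s _ => ?_
      congr 1
      ring
    · refine sum_congr rfl fun s _ => ?_
      congr 1
      ring

lemma sn_of_hf (y : ℝ)
    (h : Tendsto (fun N : ℕ => (∑ n ∈ range N, hf ((2 : ℝ) ^ n * y)) / (N : ℝ)) atTop (𝓝 0)) :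
    SimplyNormal y := by
  unfold SimplyNormal
  have h1 := h.add_const (1 / 2 : ℝ)
  rw [zero_add] at h1
  refine h1.congr' ?_
  filter_upwards [eventually_gt_atTop 0] with N hN
  have hN' : (N : ℝ) ≠ 0 := by exact_mod_cast hN.ne'
  rw [← ones_eq]
  field_simp
  ring

/-- the key statement -/
theorem key_sharp (t : ℕ) (ht : 2 ≤ t) (v : ℝ) (hv : ∀ b : ℕ, 2 ≤ b → UD fun n => (b : ℝ) ^ n * v)
    (M : ℕ) (hM : 1 ≤ M) (Y : ℚ) (hY : ∃ z : ℤ, (2 : ℝ) ^ t * Y + Y = z) :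
    SimplyNormal (M * WW ((2 ^ t : ℤ) : ℝ) v + Y) := by
  have hT : 4 ≤ (((2 ^ t : ℤ)) : ℝ) := by
    push_cast
    calc (4 : ℝ) = 2 ^ 2 := by norm_num
      _ ≤ 2 ^ t := pow_le_pow_right₀ (by norm_num) ht
  have hTe : (((2 ^ t : ℤ)) : ℝ) = 2 ^ t := by push_cast; rfl
  have hv2 : UD fun n => (2 : ℝ) ^ n * v := by
    have := hv 2 le_rfl
    push_cast at this
    exact this
  have hvirr := irr_of_ud hv2
  have hxirr := irr_WW hT hv2
  set x := WW ((2 ^ t : ℤ) : ℝ) v with hx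
  -- the two sequences
  set u : ℕ → ℝ := fun i => ((4 : ℕ) : ℝ) ^ i * v with hu
  set u' : ℕ → ℝ := fun i => ((4 : ℕ) : ℝ) ^ i * (((-2 : ℚ) : ℝ) * v + ((0 : ℚ) : ℝ)) with hu'
  have hUu : UD u := hv 4 (by norm_num)
  have hUu' : UD u' := ud_of_weyl _
    (Pool.Agent.N915.WT.wall (by norm_num : 2 ≤ 4) hUu (-2) 0 (by norm_num))
  apply sn_of_hf
  apply tendsto_blocks _ (fun n => (hf_abs _).trans (by norm_num)) (2 * t) (by omega)
  have hpow : ∀ k : ℕ, ∃ z : ℤ, (2 : ℝ) ^ (t * k) * Y = (-1) ^ k * Y + z := by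
    intro k
    obtain ⟨z0, hz0⟩ := hY
    induction k with
    | zero => exact ⟨0, by simp⟩
    | succ k ih =>
      obtain ⟨z, hz⟩ := ih
      refine ⟨(-1) ^ k * z0 + 2 ^ t * z, ?_⟩
      have e : (2 : ℝ) ^ (t * (k + 1)) * Y = 2 ^ t * ((2 : ℝ) ^ (t * k) * Y) := by
        rw [show t * (k + 1) = t * k + t by ring, pow_add]
        ring
      rw [e, hz]
      push_cast
      rw [← hz0, pow_succ]
      ring
  -- the values of the digits
  have hval : ∀ k s : ℕ, hf ((2 : ℝ) ^ (t * k + s) * (M * x + Y)) =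
      hf (((M * 2 ^ s : ℕ) : ℝ) * WW ((2 ^ t : ℤ) : ℝ) ((2 : ℝ) ^ k * v) + (-1) ^ k * (2 ^ s * Y)) := by
    intro k s
    obtain ⟨z, hz⟩ := WW_pow hT v k
    obtain ⟨z', hz'⟩ := hpow k
    rw [← hx] at hz
    have e : (2 : ℝ) ^ (t * k + s) * (M * x + Y) = (((M * 2 ^ s : ℕ) : ℝ) *
        WW ((2 ^ t : ℤ) : ℝ) ((2 : ℝ) ^ k * v) + (-1) ^ k * (2 ^ s * Y)) +
        ((M * 2 ^ s * z + 2 ^ s * z' : ℤ) : ℝ) := by
      have h1 : (2 : ℝ) ^ (t * k + s) * (M * x + Y) =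
          M * 2 ^ s * ((((2 ^ t : ℤ)) : ℝ) ^ k * x) + 2 ^ s * ((2 : ℝ) ^ (t * k) * Y) := by
        rw [hTe, ← pow_mul, pow_add]
        ring
      rw [h1, hz, hz']
      push_cast
      ring
    rw [e, hf_add_int]
  have hblock : ∀ s i : ℕ, hf ((2 : ℝ) ^ (t * (2 * i) + s) * (M * x + Y)) +
      hf ((2 : ℝ) ^ (t * (2 * i + 1) + s) * (M * x + Y)) =
      hf (((M * 2 ^ s : ℕ) : ℝ) * WW ((2 ^ t : ℤ) : ℝ) (u i) + 2 ^ s * Y) -
      hf (((M * 2 ^ s : ℕ) : ℝ) * WW ((2 ^ t : ℤ) : ℝ) (u' i) + 2 ^ s * Y) := by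
    intro s i
    have e1 := hval (2 * i) s
    have e2 := hval (2 * i + 1) s
    rw [pow_mul (-1 : ℝ) 2 i] at e1
    norm_num at e1
    have e3 : (2 : ℝ) ^ (2 * i) * v = u i := by
      rw [hu, pow_mul]
      norm_num
    have e4 : (2 : ℝ) ^ (2 * i + 1) * v = -(u' i) := by
      rw [hu', pow_succ, pow_mul]
      push_cast
      norm_num
      ring
    -- irrationality
    have hirr : Irrational (((M * 2 ^ s : ℕ) : ℝ) * WW ((2 ^ t : ℤ) : ℝ) ((2 : ℝ) ^ (2 * i + 1) * v) +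
        (-1) ^ (2 * i + 1) * (2 ^ s * Y)) := by
      obtain ⟨z, hz⟩ := WW_pow hT v (2 * i + 1)
      rw [← hx] at hz
      have h5 : WW ((2 ^ t : ℤ) : ℝ) ((2 : ℝ) ^ (2 * i + 1) * v) =
          (((2 ^ t) ^ (2 * i + 1) : ℕ) : ℝ) * x - z := by
        have h6 : (((2 ^ t) ^ (2 * i + 1) : ℕ) : ℝ) = (((2 ^ t : ℤ)) : ℝ) ^ (2 * i + 1) := by
          push_cast
          rfl
        rw [h6, hz]
        ring
      rw [h5]
      have h7 : Irrational ((((2 ^ t) ^ (2 * i + 1) : ℕ) : ℝ) * x - z) :=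
        (hxirr.natCast_mul (by positivity)).sub_intCast z
      have h8 := h7.natCast_mul (m := M * 2 ^ s)
        (Nat.mul_pos (by omega) (by positivity)).ne'
      have h9 := h8.add_ratCast ((-1) ^ (2 * i + 1) * (2 ^ s * Y))
      push_cast at h9 ⊢
      exact h9
    have hneg : ∀ j : ℕ, ∀ z : ℤ, (2 : ℝ) ^ j * ((2 : ℝ) ^ (2 * i + 1) * v) ≠ z / 2 := by
      intro j z h
      have h5 : Irrational (((2 ^ j * 2 ^ (2 * i + 1) : ℕ) : ℝ) * v) :=
        hvirr.natCast_mul (by positivity)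
      apply h5
      refine ⟨z / 2, ?_⟩
      push_cast
      rw [← h]
      ring
    rw [e3] at e1
    rw [e1, e2]
    have e5 : hf (((M * 2 ^ s : ℕ) : ℝ) * WW ((2 ^ t : ℤ) : ℝ) ((2 : ℝ) ^ (2 * i + 1) * v) +
        (-1) ^ (2 * i + 1) * (2 ^ s * Y)) =
        -hf (((M * 2 ^ s : ℕ) : ℝ) * WW ((2 ^ t : ℤ) : ℝ) (u' i) + 2 ^ s * Y) := by
      rw [← neg_inj, neg_neg, ← hf_neg _ hirr]
      have h6 := WW_neg hT ((2 : ℝ) ^ (2 * i + 1) * v) hneg
      have h7 : -((2 : ℝ) ^ (2 * i + 1) * v) = u' i := by rw [e4, neg_neg]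
      rw [h7] at h6
      rw [h6]
      have h8 : -(((M * 2 ^ s : ℕ) : ℝ) * WW ((2 ^ t : ℤ) : ℝ) ((2 : ℝ) ^ (2 * i + 1) * v) +
          (-1) ^ (2 * i + 1) * (2 ^ s * Y)) =
          (((M * 2 ^ s : ℕ) : ℝ) * (1 - WW ((2 ^ t : ℤ) : ℝ) ((2 : ℝ) ^ (2 * i + 1) * v)) + 2 ^ s * Y) +
          ((-(M * 2 ^ s) : ℤ) : ℝ) := by
        rw [pow_succ (-1 : ℝ), pow_mul]
        push_cast
        norm_num
        ring
      rw [h8, hf_add_int]
    rw [e5, ← sub_eq_add_neg]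
    push_cast
    rfl
  have hsum : ∀ I : ℕ, (∑ n ∈ range (2 * t * I), hf ((2 : ℝ) ^ n * (M * x + Y))) / (I : ℝ) =
      ∑ s ∈ range t, (∑ i ∈ range I,
        (hf (((M * 2 ^ s : ℕ) : ℝ) * WW ((2 ^ t : ℤ) : ℝ) (u i) + 2 ^ s * Y) -
      hf (((M * 2 ^ s : ℕ) : ℝ) * WW ((2 ^ t : ℤ) : ℝ) (u' i) + 2 ^ s * Y))) / (I : ℝ) := by
    intro I
    rw [sum_blocks (fun n => hf ((2 : ℝ) ^ n * (M * x + Y))) t I, sum_div]
    refine sum_congr rfl fun s _ => ?_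
    congr 1
    exact sum_congr rfl fun i _ => hblock s i
  simp only [hsum]
  have h9 : Tendsto (fun I : ℕ => ∑ s ∈ range t, (∑ i ∈ range I,
        (hf (((M * 2 ^ s : ℕ) : ℝ) * WW ((2 ^ t : ℤ) : ℝ) (u i) + 2 ^ s * Y) -
      hf (((M * 2 ^ s : ℕ) : ℝ) * WW ((2 ^ t : ℤ) : ℝ) (u' i) + 2 ^ s * Y))) / (I : ℝ)) atTop
      (𝓝 (∑ s ∈ range t, 0)) :=
    tendsto_finsetSum _ fun s _ => hf_mean hT (M * 2 ^ s) (2 ^ s * Y) u u' hUu hUu'
  rw [sum_const_zero] at h9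
  exact h9

end Pool.Agent.N440.MT
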