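import Pool.Agent.N440.MT.Cos
import Pool.Agent.N440.MT.Sharp2

/-! # Final statements -/

set_option autoImplicit false

namespace Pool.Agent.N440.MT

open Finset Filter Topology
open Pool.Agent.N915.ML
open Pool.Agent.H534R3.UDist (UD Weyl ud_of_weyl)

/-- all nonzero translates, odd `d` -/
theorem normal_of_translates' (d : ℕ) (hd : 1 ≤ d) (h2 : Nat.Coprime 2 d)
    (hneg : ∀ s : ℕ, ¬ d ∣ 2 ^ s + 1) (x : ℝ)
    (h : ∀ m : ℕ, 1 ≤ m → ∀ a : ℕ, 1 ≤ a → a < d → SimplyNormal (m * x + a / d)) : NormalTwo x := by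
  obtain ⟨χ, hχ, hχ2⟩ := exists_odd' d hd h2 hneg
  rw [normal_iff_ud]
  apply ud_of_phi_odd hd χ hχ x
  intro m hm
  have hc0 : cf χ 0 = 0 := by
    have h4 := cf_mul χ hd (d - 1) (by
      have : Nat.Coprime (d - 1) (d - 1 + 1) := by simp
      rwa [Nat.sub_add_cancel hd] at this) 0
    have h5 : χ ((d - 1 : ℕ) : ZMod d) = -1 := by
      have : ((d - 1 : ℕ) : ZMod d) = -1 := by
        push_cast [hd]
        simp
      rw [this, hχ]
    rw [h5, mul_zero] at h4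
    have h6 : 2 * cf χ 0 = 0 := by linear_combination h4
    simpa using h6
  have e1 : ∀ N : ℕ, ∑ n ∈ range N, Phi χ ((2 : ℝ) ^ n * (m * x)) =
      ∑ j ∈ range d, cf χ j *
      ((∑ n ∈ range N, psi ((2 : ℝ) ^ n * (m * x + j / d)) : ℝ) : ℂ) := by
    intro N
    rw [sum_congr rfl fun n _ => Phi_pow χ hd h2 hχ2 n (m * x), sum_comm]
    refine sum_congr rfl fun j _ => ?_
    push_cast
    rw [mul_sum]
  have h8 : Tendsto (fun N : ℕ => ∑ j ∈ range d, cf χ j *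
      (((∑ n ∈ range N, psi ((2 : ℝ) ^ n * (m * x + j / d))) / N : ℝ) : ℂ)) atTop
        (𝓝 (∑ j ∈ range d, 0)) := by
    refine tendsto_finsetSum _ fun j hj => ?_
    by_cases hj0 : j = 0
    · subst hj0
      rw [hc0]
      simp only [zero_mul]
      exact tendsto_const_nhds
    · have h10 : Tendsto (fun N : ℕ => cf χ j *
            (((∑ n ∈ range N, psi ((2 : ℝ) ^ n * (m * x + j / d))) / N : ℝ) : ℂ)) atTop
            (𝓝 (cf χ j * ((0 : ℝ) : ℂ))) :=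
          (Tendsto.comp (Complex.continuous_ofReal.tendsto 0)
            ((sn_iff _).1 (h m hm j (by omega) (mem_range.1 hj)))).const_mul _
      simpa using h10
  rw [sum_const_zero] at h8
  have h11 := h8.norm
  rw [norm_zero] at h11
  refine h11.congr fun N => ?_
  rw [e1 N]
  have hc : ∀ A : ℝ, ((A / N : ℝ) : ℂ) = (A : ℂ) / (N : ℂ) := fun A => by push_cast; rfl
  simp only [hc]
  rw [← Complex.norm_natCast N, ← norm_div, Finset.sum_div (range d) _ (N : ℂ)]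
  congr 1
  refine sum_congr rfl fun j _ => ?_
  rw [mul_div_assoc]

/-- the odd part -/
lemma odd_part (d : ℕ) (hd : 1 ≤ d) (h : ∀ u v : ℕ, ¬ d ∣ 2 ^ u + 2 ^ v) : ∃ j d' : ℕ,
    d = 2 ^ j * d' ∧ 1 ≤ d' ∧ Nat.Coprime 2 d' ∧ ∀ s : ℕ, ¬ d' ∣ 2 ^ s + 1 := by
  obtain ⟨j, d', hodd, he⟩ := Nat.exists_eq_two_pow_mul_odd (n := d) (by omega)
  refine ⟨j, d', he, hodd.pos, (Nat.coprime_two_left).2 hodd, fun s hs => ?_⟩
  apply h (j + s) j
  rw [he, pow_add]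
  have : 2 ^ j * 2 ^ s + 2 ^ j = 2 ^ j * (2 ^ s + 1) := by ring
  rw [this]
  exact Nat.mul_dvd_mul_left _ hs

/-- (1) -/
theorem part_one (d : ℕ) (hd : 1 ≤ d) (h : ∀ u v : ℕ, ¬ d ∣ 2 ^ u + 2 ^ v) (x : ℝ) :
    NormalTwo x ↔ ∀ m : ℕ, 1 ≤ m → ∀ a : ℕ, 1 ≤ a → a < d → SimplyNormal (m * x + a / d) := by
  constructor
  · intro hx m hm a _ _
    have h1 := simplyNormal_of_normal _ (normal_affine x hx m hm (a / d))
    push_cast at h1
    exact h1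
  · intro hx
    obtain ⟨j, d', he, hd', h2, hneg⟩ := odd_part d hd h
    apply normal_of_translates' d' hd' h2 hneg x
    intro m hm a ha ha'
    have h3 := hx m hm (2 ^ j * a) (Nat.mul_pos (by positivity) ha)
      (by rw [he]; exact Nat.mul_lt_mul_of_pos_left ha' (by positivity))
    have e : (((2 ^ j * a : ℕ) : ℝ)) / d = a / d' := by
      rw [he]
      push_cast
      have : (d' : ℝ) ≠ 0 := by exact_mod_cast (by omega : d' ≠ 0)
      field_simp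
    rw [e] at h3
    exact h3

lemma sn_unshift (y : ℝ) (i : ℕ) (h : SN ((2 : ℝ) ^ i * y)) : SN y := by
  unfold SN at h ⊢
  rw [← tendsto_add_atTop_iff_nat i]
  have h4 : Tendsto (fun N : ℕ => ((N : ℝ)) / ((N + i : ℕ) : ℝ)) atTop (𝓝 1) := by
    have h5 : Tendsto (fun N : ℕ => (1 + (i : ℝ) / N)⁻¹) atTop (𝓝 (1 + 0)⁻¹) :=
      ((tendsto_const_div_atTop_nhds_zero_nat (i : ℝ)).const_add 1).inv₀ (by norm_num)
    rw [add_zero, inv_one] at h5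
    refine h5.congr' ?_
    filter_upwards [eventually_gt_atTop 0] with N hN
    have hN' : (N : ℝ) ≠ 0 := by exact_mod_cast hN.ne'
    push_cast
    field_simp
  have h6 : Tendsto (fun N : ℕ => (∑ n ∈ range i, psi ((2 : ℝ) ^ n * y)) / ((N + i : ℕ) : ℝ)) atTop
      (𝓝 0) :=
    (tendsto_const_div_atTop_nhds_zero_nat _).comp (tendsto_add_atTop_nat i)
  have h7 := (h.mul h4).add h6
  rw [zero_mul, add_zero] at h7
  refine h7.congr' ?_
  filter_upwards [eventually_gt_atTop 0] with N hN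
  have hN' : (N : ℝ) ≠ 0 := by exact_mod_cast hN.ne'
  have hN2 : ((N + i : ℕ) : ℝ) ≠ 0 := by positivity
  have e : ∑ n ∈ range (N + i), psi ((2 : ℝ) ^ n * y) = ∑ n ∈ range i, psi ((2 : ℝ) ^ n * y) +
      ∑ n ∈ range N, psi ((2 : ℝ) ^ n * ((2 : ℝ) ^ i * y)) := by
    rw [Nat.add_comm N i, sum_range_add]
    congr 1
    refine sum_congr rfl fun n _ => ?_
    congr 1
    rw [pow_add]
    ring
  rw [e]
  generalize ∑ n ∈ range N, psi ((2 : ℝ) ^ n * ((2 : ℝ) ^ i * y)) = A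
  generalize ∑ n ∈ range i, psi ((2 : ℝ) ^ n * y) = B
  field_simp
  ring

/-- (2) -/
theorem part_two (d : ℕ) (hd : 1 ≤ d) (h : ∃ u v : ℕ, d ∣ 2 ^ u + 2 ^ v) :
    ∃ x : ℝ, ¬ NormalTwo x ∧ ∀ m : ℤ, m ≠ 0 → ∀ a : ℤ, SimplyNormal (m * x + a / d) := by
  have hd0 : (d : ℝ) ≠ 0 := by exact_mod_cast (by omega : d ≠ 0)
  obtain ⟨j, t, ht, hjt⟩ : ∃ j t : ℕ, 2 ≤ t ∧ d ∣ 2 ^ j * (2 ^ t + 1) := by
    obtain ⟨u, v, huv⟩ := h
    wlog hle : u ≤ v generalizing u v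
    · exact this v u (by rwa [Nat.add_comm]) (by omega)
    obtain ⟨s, rfl⟩ := Nat.exists_eq_add_of_le hle
    have e : 2 ^ u + 2 ^ (u + s) = 2 ^ u * (2 ^ s + 1) := by rw [pow_add]; ring
    rw [e] at huv
    rcases Nat.eq_zero_or_pos s with hs | hs
    · subst hs
      refine ⟨u + 1, 3, by norm_num, ?_⟩
      have e2 : 2 ^ (u + 1) * (2 ^ 3 + 1) = 2 ^ u * (2 ^ 0 + 1) * 9 := by ring
      rw [e2]
      exact Dvd.dvd.mul_right huv _
    · refine ⟨u, 3 * s, by omega, ?_⟩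
      have h3 : 2 ^ s + 1 ∣ 2 ^ (3 * s) + 1 := by
        have h4 : Odd 3 := by decide
        have h5 := h4.nat_add_dvd_pow_add_pow (2 ^ s) 1
        rw [one_pow, ← pow_mul, mul_comm s 3] at h5
        exact h5
      exact huv.trans (Nat.mul_dvd_mul_left _ h3)
  obtain ⟨v, hv⟩ := exists_normal
  obtain ⟨c, hc⟩ := hjt
  have hcR : (2 : ℝ) ^ j * (2 ^ t + 1) = d * c := by exact_mod_cast hc
  -- positive multiples
  have hpos : ∀ m : ℕ, 1 ≤ m → ∀ a : ℤ, SN (m * WW ((2 ^ t : ℤ) : ℝ) v + a / d) := by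
    intro m hm a
    apply sn_unshift _ j
    have h3 := key_sharp t ht v hv (2 ^ j * m) (Nat.mul_pos (by positivity) (by omega))
      (2 ^ j * a / d) ⟨a * c, by
        push_cast
        have e : (2 : ℝ) ^ t * (2 ^ j * a / d) + 2 ^ j * a / d = a * (2 ^ j * (2 ^ t + 1)) / d := by
          ring
        rw [e, hcR]
        field_simp⟩
    have h4 := (sn_iff _).1 h3
    push_cast at h4 ⊢
    convert h4 using 1
    ring
  refine ⟨WW ((2 ^ t : ℤ) : ℝ) v, WW_not_normal t ht v, fun m hm a => ?_⟩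
  rw [sn_iff]
  rcases lt_or_gt_of_ne hm with hm0 | hm0
  · obtain ⟨k, hk⟩ : ∃ k : ℕ, m = -(k : ℤ) := ⟨m.natAbs, by omega⟩
    have h3 := sn_neg _ (hpos k (by omega) (-a))
    rw [hk]
    push_cast at h3 ⊢
    convert h3 using 1
    ring
  · obtain ⟨k, hk⟩ : ∃ k : ℕ, m = (k : ℤ) := ⟨m.natAbs, by omega⟩
    have h3 := hpos k (by omega) a
    rw [hk]
    push_cast at h3 ⊢
    exact h3

/-- (3) -/
theorem part_three (d : ℕ) (hodd : Odd d) (hneg : ∀ s : ℕ, ¬ d ∣ 2 ^ s + 1)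
    (hcov : ∀ j : ℕ, 1 ≤ j → j < d → ∃ i : ℕ, 2 ^ i ≡ j [MOD d] ∨ d ∣ 2 ^ i + j) (x : ℝ) :
    (NormalTwo x ↔ ∀ m : ℤ, m ≠ 0 → SimplyNormal (m * x + 1 / d)) ∧
    (NormalTwo x ↔ ∀ m : ℕ, 1 ≤ m → SimplyNormal (m * x) ∧ SimplyNormal (m * x + 1 / d)) := by
  have h2 : Nat.Coprime 2 d := Nat.coprime_two_left.2 hodd
  refine ⟨⟨fun hx m hm => ?_, fun h => normal_of_one d hodd.pos h2 hneg hcov x h⟩,
    ⟨fun hx m hm => ⟨?_, ?_⟩, fun h => normal_of_two d hodd.pos h2 hneg hcov x h⟩⟩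
  · rw [sn_iff]
    rcases lt_or_gt_of_ne hm with hm0 | hm0
    · obtain ⟨k, hk⟩ : ∃ k : ℕ, m = -(k : ℤ) := ⟨m.natAbs, by omega⟩
      have h1 := simplyNormal_of_normal _ (normal_affine x hx k (by omega) (-(1 / d)))
      have h3 := sn_neg _ ((sn_iff _).1 h1)
      rw [hk]
      push_cast at h3 ⊢
      convert h3 using 1
      ring
    · obtain ⟨k, hk⟩ : ∃ k : ℕ, m = (k : ℤ) := ⟨m.natAbs, by omega⟩
      have h1 := simplyNormal_of_normal _ (normal_affine x hx k (by omega) (1 / d))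
      have h3 := (sn_iff _).1 h1
      rw [hk]
      push_cast at h3 ⊢
      exact h3
  · have h1 := simplyNormal_of_normal _ (normal_affine x hx m hm 0)
    push_cast at h1
    rwa [add_zero] at h1
  · have h1 := simplyNormal_of_normal _ (normal_affine x hx m hm (1 / d))
    push_cast at h1
    exact h1

lemma neg_seven : ∀ s : ℕ, ¬ 7 ∣ 2 ^ s + 1 := by
  intro s h
  have h1 : (2 ^ s + 1) % 7 = 0 := Nat.mod_eq_zero_of_dvd h
  obtain ⟨q, r, hr, hs⟩ : ∃ q r, r < 3 ∧ s = 3 * q + r := ⟨s / 3, s % 3, Nat.mod_lt _ (by norm_num), by omega⟩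
  rw [hs, pow_add, pow_mul] at h1
  have h2 : (2 ^ 3) ^ q % 7 = 1 := by
    rw [Nat.pow_mod]
    norm_num
  interval_cases r <;> omega

lemma cov_seven : ∀ j : ℕ, 1 ≤ j → j < 7 → ∃ i : ℕ, 2 ^ i ≡ j [MOD 7] ∨ 7 ∣ 2 ^ i + j := by
  intro j h1 h2
  interval_cases j
  · exact ⟨0, Or.inl rfl⟩
  · exact ⟨1, Or.inl rfl⟩
  · exact ⟨2, Or.inr (by norm_num)⟩
  · exact ⟨2, Or.inl rfl⟩
  · exact ⟨1, Or.inr (by norm_num)⟩
  · exact ⟨0, Or.inr (by norm_num)⟩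

/-- (4) -/
theorem part_four (d : ℕ) (hd : 1 ≤ d) (h : ∀ u v : ℕ, ¬ d ∣ 2 ^ u + 2 ^ v) (ε : ℝ) (hε : 0 < ε) :
    ∃ Q : ℕ, 1 ≤ Q ∧ ∃ δ : ℝ, 0 < δ ∧ ∃ N₀ : ℕ, ∀ (x : ℝ) (N : ℕ), N₀ ≤ N →
      (∀ m : ℕ, 1 ≤ m → m ≤ Q → ∀ a : ℕ, a < d → |(ones (m * x + a / d) N : ℝ) - N / 2| ≤ δ * N) →
      ∀ (k : ℕ) (w : ℕ → ℤ), (∀ j < k, w j = 0 ∨ w j = 1) →
        |(occ x k w N : ℝ) - N / 2 ^ k| ≤ ε * N := by
  obtain ⟨j, d', he, hd', h2, hneg⟩ := odd_part d hd h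
  obtain ⟨Q, hQ, δ, hδ, N₀, H⟩ := stage_two d' hd' h2 hneg ε hε
  refine ⟨Q, hQ, δ, hδ, N₀, fun x N hN h3 k w hw => H x N hN (fun m hm hmQ a ha => ?_) k w hw⟩
  have h4 := h3 m hm hmQ (2 ^ j * a)
    (by rw [he]; exact Nat.mul_lt_mul_of_pos_left ha (by positivity))
  have e : (((2 ^ j * a : ℕ) : ℝ)) / d = a / d' := by
    rw [he]
    push_cast
    have : (d' : ℝ) ≠ 0 := by exact_mod_cast (by omega : d' ≠ 0)
    field_simp
  rw [e] at h4
  exact h4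

end Pool.Agent.N440.MT
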