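import Pool.Agent.N440.MT.Crit
import Pool.Agent.N245.UN.Main

/-! # Means of monotone functions along uniformly distributed sequences -/

set_option autoImplicit false

namespace Pool.Agent.N440.MT

open Finset Filter Topology
open Pool.Agent.N915.ML
open Pool.Agent.H534R3.UDist (UD Weyl ud_of_weyl)

/-- lower step function -/
lemma mono_lower (g : ℝ → ℝ) (hg : MonotoneOn g (Set.Ico 0 1)) (u : ℕ → ℝ) (K : ℕ) (hK : 1 ≤ K)
    (N : ℕ) : ∑ i ∈ range K, g ((i : ℝ) / K) *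
      (vis (range N) u ((i : ℝ) / K) (((i : ℝ) + 1) / K) : ℝ) ≤ ∑ n ∈ range N, g (Int.fract (u n)) := by
  classical
  have hK0 : (0 : ℝ) < K := by exact_mod_cast hK
  have h1 : ∀ i ∈ range K, g ((i : ℝ) / K) *
      (vis (range N) u ((i : ℝ) / K) (((i : ℝ) + 1) / K) : ℝ) =
      ∑ n ∈ range N, if (i : ℝ) / K ≤ Int.fract (u n) ∧ Int.fract (u n) < ((i : ℝ) + 1) / K
        then g ((i : ℝ) / K) else 0 := by
    intro i _
    unfold vis
    rw [← sum_filter, sum_const, nsmul_eq_mul, mul_comm]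
  rw [sum_congr rfl h1, sum_comm]
  refine sum_le_sum fun n _ => ?_
  obtain ⟨a, ha, h3, h4⟩ := exists_cell (q := K) hK (u n)
  rw [sum_eq_single a]
  · rw [if_pos ⟨h3, h4⟩]
    apply hg _ _ h3
    · refine ⟨by positivity, ?_⟩
      rw [div_lt_one hK0]
      exact_mod_cast ha
    · exact ⟨Int.fract_nonneg _, Int.fract_lt_one _⟩
  · intro b _ hb
    rw [if_neg]
    rintro ⟨h5, h6⟩
    exact hb (cell_unique hK h5 h6 h3 h4)
  · intro h
    exact absurd (mem_range.2 ha) h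

/-- upper step function -/
lemma mono_upper (g : ℝ → ℝ) (hg : MonotoneOn g (Set.Ico 0 1)) (B : ℝ)
    (hB : ∀ V ∈ Set.Ico (0 : ℝ) 1, g V ≤ B) (u : ℕ → ℝ) (K : ℕ) (hK : 1 ≤ K) (N : ℕ) :
    ∑ n ∈ range N, g (Int.fract (u n)) ≤ ∑ i ∈ range K,
      (if i + 1 < K then g (((i : ℝ) + 1) / K) else B) *
      (vis (range N) u ((i : ℝ) / K) (((i : ℝ) + 1) / K) : ℝ) := by
  classical
  have hK0 : (0 : ℝ) < K := by exact_mod_cast hK
  have h1 : ∀ i ∈ range K, (if i + 1 < K then g (((i : ℝ) + 1) / K) else B) *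
      (vis (range N) u ((i : ℝ) / K) (((i : ℝ) + 1) / K) : ℝ) =
      ∑ n ∈ range N, if (i : ℝ) / K ≤ Int.fract (u n) ∧ Int.fract (u n) < ((i : ℝ) + 1) / K
        then (if i + 1 < K then g (((i : ℝ) + 1) / K) else B) else 0 := by
    intro i _
    unfold vis
    rw [← sum_filter, sum_const, nsmul_eq_mul, mul_comm]
  rw [sum_congr rfl h1, sum_comm]
  refine sum_le_sum fun n _ => ?_
  obtain ⟨a, ha, h3, h4⟩ := exists_cell (q := K) hK (u n)
  have hmem : Int.fract (u n) ∈ Set.Ico (0 : ℝ) 1 := ⟨Int.fract_nonneg _, Int.fract_lt_one _⟩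
  rw [sum_eq_single a]
  · rw [if_pos ⟨h3, h4⟩]
    split_ifs with h5
    · apply hg hmem _ h4.le
      refine ⟨by positivity, ?_⟩
      rw [div_lt_one hK0]
      exact_mod_cast h5
    · exact hB _ hmem
  · intro b _ hb
    rw [if_neg]
    rintro ⟨h5, h6⟩
    exact hb (cell_unique hK h5 h6 h3 h4)
  · intro h
    exact absurd (mem_range.2 ha) h

lemma telescope (g : ℝ → ℝ) (B : ℝ) (K : ℕ) (hK : 1 ≤ K) :
    ∑ i ∈ range K, (if i + 1 < K then g (((i : ℝ) + 1) / K) else B) =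
      ∑ i ∈ range K, g ((i : ℝ) / K) + (B - g 0) := by
  obtain ⟨L, rfl⟩ : ∃ L, K = L + 1 := ⟨K - 1, by omega⟩
  rw [sum_range_succ, if_neg (by omega), sum_range_succ']
  have h1 : ∀ i ∈ range L, (if i + 1 < L + 1 then g (((i : ℝ) + 1) / ((L + 1 : ℕ) : ℝ)) else B) =
      g (((i + 1 : ℕ) : ℝ) / ((L + 1 : ℕ) : ℝ)) := by
    intro i hi
    rw [mem_range] at hi
    rw [if_pos (by omega)]
    push_cast
    rfl
  rw [sum_congr rfl h1]
  simp

/-- the means of a bounded monotone function along two uniformly distributed sequences agree -/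
theorem mono_mean (g : ℝ → ℝ) (hg : MonotoneOn g (Set.Ico 0 1)) (B : ℝ)
    (hB : ∀ V ∈ Set.Ico (0 : ℝ) 1, g V ≤ B) (u u' : ℕ → ℝ) (hu : UD u) (hu' : UD u') :
    Tendsto (fun N : ℕ => (∑ n ∈ range N, g (Int.fract (u n)) - ∑ n ∈ range N, g (Int.fract (u' n))) /
      (N : ℝ)) atTop (𝓝 0) := by
  -- one sided estimate
  have key : ∀ u u' : ℕ → ℝ, UD u → UD u' → ∀ ε : ℝ, 0 < ε → ∀ᶠ N : ℕ in atTop,
      (∑ n ∈ range N, g (Int.fract (u n)) - ∑ n ∈ range N, g (Int.fract (u' n))) / (N : ℝ) < ε := by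
    intro u u' hu hu' ε hε
    obtain ⟨K, hK⟩ := exists_nat_gt (max 1 ((B - g 0) / ε))
    have hK1 : (1 : ℝ) < K := lt_of_le_of_lt (le_max_left _ _) hK
    have hK2 : (B - g 0) / ε < K := lt_of_le_of_lt (le_max_right _ _) hK
    have hK0 : (0 : ℝ) < K := by linarith
    have hK1' : 1 ≤ K := by exact_mod_cast hK1.le
    have hcell : ∀ w : ℕ → ℝ, UD w → ∀ i ∈ range K, Tendsto (fun N : ℕ =>
        (vis (range N) w ((i : ℝ) / K) (((i : ℝ) + 1) / K) : ℝ) / N) atTop (𝓝 (1 / K)) := by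
      intro w hw i hi
      have h1 := hw ((i : ℝ) / K) (((i : ℝ) + 1) / K) (by positivity)
        (by
          apply div_le_div_of_nonneg_right _ hK0.le
          linarith)
        (by
          rw [div_le_one hK0]
          have : i + 1 ≤ K := mem_range.1 hi
          exact_mod_cast this)
      have e : ((i : ℝ) + 1) / K - (i : ℝ) / K = 1 / K := by ring
      rw [e] at h1
      exact h1
    have h1 : Tendsto (fun N : ℕ => ∑ i ∈ range K,
        (if i + 1 < K then g (((i : ℝ) + 1) / K) else B) *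
        ((vis (range N) u ((i : ℝ) / K) (((i : ℝ) + 1) / K) : ℝ) / N)) atTop
        (𝓝 (∑ i ∈ range K, (if i + 1 < K then g (((i : ℝ) + 1) / K) else B) * (1 / K))) :=
      tendsto_finsetSum _ fun i hi => (hcell u hu i hi).const_mul _
    have h2 : Tendsto (fun N : ℕ => ∑ i ∈ range K, g ((i : ℝ) / K) *
        ((vis (range N) u' ((i : ℝ) / K) (((i : ℝ) + 1) / K) : ℝ) / N)) atTop
        (𝓝 (∑ i ∈ range K, g ((i : ℝ) / K) * (1 / K))) :=
      tendsto_finsetSum _ fun i hi => (hcell u' hu' i hi).const_mul _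
    have h3 := h1.sub h2
    have e : ∑ i ∈ range K, (if i + 1 < K then g (((i : ℝ) + 1) / K) else B) * (1 / (K : ℝ)) -
        ∑ i ∈ range K, g ((i : ℝ) / K) * (1 / (K : ℝ)) = (B - g 0) / K := by
      rw [← sum_mul, ← sum_mul, telescope g B K hK1']
      ring
    rw [e] at h3
    have h4 : (B - g 0) / K < ε := by
      rw [div_lt_iff₀ hK0]
      rw [div_lt_iff₀ hε] at hK2
      linarith
    filter_upwards [h3.eventually (gt_mem_nhds h4), eventually_gt_atTop 0] with N hN hN0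
    have hNR : (0 : ℝ) < N := by exact_mod_cast hN0
    refine lt_of_le_of_lt ?_ hN
    have h5 := mono_upper g hg B hB u K hK1' N
    have h6 := mono_lower g hg u' K hK1' N
    rw [sub_div]
    apply sub_le_sub
    · rw [div_le_iff₀ hNR, sum_mul]
      refine h5.trans (le_of_eq (sum_congr rfl fun i _ => ?_))
      field_simp
    · rw [le_div_iff₀ hNR, sum_mul]
      refine le_trans (le_of_eq (sum_congr rfl fun i _ => ?_)) h6
      field_simp
  rw [Metric.tendsto_atTop]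
  intro ε hε
  obtain ⟨N0, hN0⟩ := eventually_atTop.1 ((key u u' hu hu' ε hε).and (key u' u hu' hu ε hε))
  refine ⟨N0, fun N hN => ?_⟩
  obtain ⟨h1, h2⟩ := hN0 N hN
  rw [Real.dist_eq, sub_zero, abs_lt]
  refine ⟨?_, h1⟩
  have e : (∑ n ∈ range N, g (Int.fract (u' n)) - ∑ n ∈ range N, g (Int.fract (u n))) / (N : ℝ) =
      -((∑ n ∈ range N, g (Int.fract (u n)) - ∑ n ∈ range N, g (Int.fract (u' n))) / (N : ℝ)) := by ring
  rw [e] at h2
  linarith

/-- there are absolutely normal numbers -/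
theorem exists_normal : ∃ v : ℝ, ∀ b : ℕ, 2 ≤ b → UD fun n => (b : ℝ) ^ n * v := by
  have ha : StrictMono fun k : ℕ => (k + 1) ^ 4 := by
    intro a b hab
    exact Nat.pow_lt_pow_left (by omega) (by norm_num)
  have h := Pool.Agent.N245.UN.ae_normal ha (fun k => le_rfl)
  obtain ⟨ω, hω⟩ := h.exists
  exact ⟨_, hω⟩

end Pool.Agent.N440.MT
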