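import Pool.Agent.N440.MT.Mono

/-! # Repeating every binary digit `t` times -/

set_option autoImplicit false

namespace Pool.Agent.N440.MT

open Finset Filter Topology
open Pool.Agent.N915.ML
open Pool.Agent.H534R3.UDist (UD Weyl ud_of_weyl)

/-- the first binary digit of the fractional part -/
noncomputable def dg (V : ℝ) : ℝ := if 1 / 2 ≤ Int.fract V then 1 else 0

lemma dg_cases (V : ℝ) : dg V = 0 ∨ dg V = 1 := by
  unfold dg
  split_ifs
  · exact Or.inr rfl
  · exact Or.inl rfl

lemma dg_nonneg (V : ℝ) : 0 ≤ dg V := by rcases dg_cases V with h | h <;> rw [h]; norm_num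
lemma dg_le (V : ℝ) : dg V ≤ 1 := by rcases dg_cases V with h | h <;> rw [h]; norm_num

/-- the number with the digits `T - 1` and `0` in base `T` in the places of the ones and zeros of the
binary expansion of the fractional part -/
noncomputable def WW (T : ℝ) (V : ℝ) : ℝ := ∑' j : ℕ, (T - 1) * dg ((2 : ℝ) ^ j * V) / T ^ (j + 1)

section
variable {T : ℝ} (hT : 4 ≤ T)
include hT

lemma hasSum_geo : HasSum (fun j : ℕ => (T - 1) / T ^ (j + 1)) 1 := by
  have hT0 : 0 < T := by linarith
  have h1 : HasSum (fun j : ℕ => (1 / T) ^ j) (1 - 1 / T)⁻¹ :=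
    hasSum_geometric_of_lt_one (by positivity) (by rw [div_lt_one hT0]; linarith)
  have h2 := h1.mul_left ((T - 1) / T)
  have e : (T - 1) / T * (1 - 1 / T)⁻¹ = 1 := by
    have : T - 1 ≠ 0 := by linarith
    have h3 : 1 - 1 / T = (T - 1) / T := by field_simp
    rw [h3, mul_inv_cancel₀]
    positivity
  rw [e] at h2
  refine h2.congr_fun ?_ |> fun h => h
  intro j
  rw [one_div, inv_pow, pow_succ]
  field_simp

lemma term_bound (V : ℝ) (j : ℕ) : 0 ≤ (T - 1) * dg ((2 : ℝ) ^ j * V) / T ^ (j + 1) ∧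
    (T - 1) * dg ((2 : ℝ) ^ j * V) / T ^ (j + 1) ≤ (T - 1) / T ^ (j + 1) := by
  have hT0 : 0 < T := by linarith
  have h1 := dg_nonneg ((2 : ℝ) ^ j * V)
  have h2 := dg_le ((2 : ℝ) ^ j * V)
  have h3 : 0 ≤ T - 1 := by linarith
  refine ⟨by positivity, ?_⟩
  apply div_le_div_of_nonneg_right _ (by positivity)
  nlinarith

lemma summable_WW (V : ℝ) : Summable fun j : ℕ => (T - 1) * dg ((2 : ℝ) ^ j * V) / T ^ (j + 1) :=
  Summable.of_nonneg_of_le (fun j => (term_bound hT V j).1) (fun j => (term_bound hT V j).2)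
    (hasSum_geo hT).summable

lemma WW_nonneg (V : ℝ) : 0 ≤ WW T V := tsum_nonneg fun j => (term_bound hT V j).1

lemma WW_le (V : ℝ) : WW T V ≤ 1 := by
  rw [← (hasSum_geo hT).tsum_eq]
  exact Summable.tsum_le_tsum (fun j => (term_bound hT V j).2) (summable_WW hT V)
    (hasSum_geo hT).summable

lemma WW_step (V : ℝ) : WW T V = ((T - 1) * dg V + WW T (2 * V)) / T := by
  have hT0 : 0 < T := by linarith
  unfold WW
  rw [(summable_WW hT V).tsum_eq_zero_add, add_div]
  congr 1
  · simp
  · rw [← tsum_div_const]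
    congr 1
    funext j
    have e : (2 : ℝ) ^ (j + 1) * V = (2 : ℝ) ^ j * (2 * V) := by ring
    rw [e, pow_succ T (j + 1)]
    field_simp

omit hT in
lemma dg_add_int (V : ℝ) (z : ℤ) : dg (V + z) = dg V := by
  unfold dg
  rw [Int.fract_add_intCast]

omit hT in
lemma WW_add_int (V : ℝ) (z : ℤ) : WW T (V + z) = WW T V := by
  unfold WW
  congr 1
  funext j
  have e : (2 : ℝ) ^ j * (V + z) = (2 : ℝ) ^ j * V + ((2 ^ j * z : ℤ) : ℝ) := by
    push_cast
    ring
  rw [e, dg_add_int]

omit hT in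
lemma WW_fract (V : ℝ) : WW T (Int.fract V) = WW T V := by
  have e : Int.fract V = V + ((-⌊V⌋ : ℤ) : ℝ) := by
    push_cast
    rw [Int.fract]
    ring
  rw [e, WW_add_int]

omit hT in
lemma dg_of_lt {V : ℝ} (h0 : 0 ≤ V) (h1 : V < 1 / 2) : dg V = 0 := by
  unfold dg
  rw [Int.fract_eq_self.2 ⟨h0, by linarith⟩, if_neg (by linarith)]

omit hT in
lemma dg_of_ge {V : ℝ} (h0 : 1 / 2 ≤ V) (h1 : V < 1) : dg V = 1 := by
  unfold dg
  rw [Int.fract_eq_self.2 ⟨by linarith, h1⟩, if_pos h0]

/-- monotone on `[0, 1)` -/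
lemma WW_mono_aux (J : ℕ) : ∀ V V' : ℝ, 0 ≤ V → V ≤ V' → V' < 1 →
    WW T V ≤ WW T V' + 1 / T ^ J := by
  have hT0 : 0 < T := by linarith
  induction J with
  | zero =>
    intro V V' _ _ _
    have h1 := WW_le hT V
    have h2 := WW_nonneg hT V'
    rw [pow_zero, div_one]
    linarith
  | succ J ih =>
    intro V V' h0 h1 h2
    have hJ : 0 ≤ 1 / T ^ (J + 1) := by positivity
    rw [WW_step hT V, WW_step hT V']
    rcases lt_or_ge V' (1 / 2) with h3 | h3
    · rw [dg_of_lt h0 (by linarith), dg_of_lt (by linarith) h3]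
      have h4 := ih (2 * V) (2 * V') (by linarith) (by linarith) (by linarith)
      have e : ((T - 1) * 0 + WW T (2 * V')) / T + 1 / T ^ (J + 1) =
          (WW T (2 * V') + 1 / T ^ J) / T := by
        rw [pow_succ]
        field_simp
        ring
      rw [e]
      apply div_le_div_of_nonneg_right _ hT0.le
      linarith
    · rcases lt_or_ge V (1 / 2) with h4 | h4
      · rw [dg_of_lt h0 h4, dg_of_ge h3 h2]
        have h5 : ((T - 1) * 0 + WW T (2 * V)) / T ≤ ((T - 1) * 1 + WW T (2 * V')) / T := by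
          apply div_le_div_of_nonneg_right _ hT0.le
          have := WW_le hT (2 * V)
          have := WW_nonneg hT (2 * V')
          linarith
        linarith
      · rw [dg_of_ge h4 (by linarith), dg_of_ge h3 h2]
        have h5 := ih (2 * V - 1) (2 * V' - 1) (by linarith) (by linarith) (by linarith)
        have e1 : ∀ U : ℝ, WW T (2 * U - 1) = WW T (2 * U) := by
          intro U
          have := WW_add_int (T := T) (2 * U) (-1)
          push_cast at this
          rw [← this]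
          congr 1
        rw [e1, e1] at h5
        have e : ((T - 1) * 1 + WW T (2 * V')) / T + 1 / T ^ (J + 1) =
            ((T - 1) * 1 + (WW T (2 * V') + 1 / T ^ J)) / T := by
          rw [pow_succ]
          field_simp
          ring
        rw [e]
        apply div_le_div_of_nonneg_right _ hT0.le
        linarith

lemma WW_mono : MonotoneOn (WW T) (Set.Ico 0 1) := by
  have hT0 : 0 < T := by linarith
  intro V hV V' hV' h
  apply le_of_forall_pos_le_add
  intro ε hε
  obtain ⟨J, hJ⟩ := exists_pow_lt_of_lt_one hε (show 1 / T < 1 by rw [div_lt_one hT0]; linarith)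
  have h1 := WW_mono_aux hT J V V' hV.1 h hV'.2
  rw [one_div_pow] at hJ
  linarith

/-- reflection -/
lemma WW_neg (V : ℝ) (h : ∀ j : ℕ, ∀ z : ℤ, (2 : ℝ) ^ j * V ≠ z / 2) : WW T (-V) = 1 - WW T V := by
  have h1 : ∀ j : ℕ, dg ((2 : ℝ) ^ j * (-V)) = 1 - dg ((2 : ℝ) ^ j * V) := by
    intro j
    set y := (2 : ℝ) ^ j * V with hy
    have h0 : ∀ z : ℤ, y ≠ z / 2 := h j
    have e : (2 : ℝ) ^ j * (-V) = -y := by rw [hy]; ring
    rw [e]
    have hne : Int.fract y ≠ 0 := by
      intro h2
      have := Int.floor_add_fract y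
      apply h0 (2 * ⌊y⌋)
      push_cast
      rw [h2] at this
      linarith
    have hne2 : Int.fract y ≠ 1 / 2 := by
      intro h2
      have := Int.floor_add_fract y
      apply h0 (2 * ⌊y⌋ + 1)
      push_cast
      rw [h2] at this
      linarith
    unfold dg
    rw [Int.fract_neg hne]
    rcases lt_or_gt_of_ne hne2 with h3 | h3
    · rw [if_pos (by linarith), if_neg (by linarith)]
      norm_num
    · rw [if_neg (by linarith), if_pos (by linarith)]
      norm_num
  rw [eq_sub_iff_add_eq, ← (hasSum_geo hT).tsum_eq]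
  unfold WW
  rw [← (summable_WW hT (-V)).tsum_add (summable_WW hT V)]
  congr 1
  funext j
  rw [h1 j]
  ring

omit hT in
/-- multiplication by `T ^ k` -/
lemma WW_pow {T : ℤ} (hT : 4 ≤ (T : ℝ)) (V : ℝ) (k : ℕ) : ∃ z : ℤ,
    (T : ℝ) ^ k * WW T V = WW T ((2 : ℝ) ^ k * V) + z := by
  have hT0 : (0 : ℝ) < T := by linarith
  induction k with
  | zero => exact ⟨0, by simp⟩
  | succ k ih =>
    obtain ⟨z, hz⟩ := ih
    obtain ⟨D, hD⟩ : ∃ D : ℤ, dg ((2 : ℝ) ^ k * V) = D := by
      rcases dg_cases ((2 : ℝ) ^ k * V) with h | h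
      · exact ⟨0, by rw [h]; simp⟩
      · exact ⟨1, by rw [h]; simp⟩
    refine ⟨(T - 1) * D + T * z, ?_⟩
    rw [pow_succ, mul_right_comm, hz, WW_step hT ((2 : ℝ) ^ k * V), hD]
    have e : (2 : ℝ) * ((2 : ℝ) ^ k * V) = (2 : ℝ) ^ (k + 1) * V := by ring
    rw [e]
    push_cast
    field_simp
    ring

/-- small values -/
lemma WW_small (j : ℕ) : ∀ V : ℝ, 0 ≤ V → V < 1 / 2 ^ j → WW T V ≤ 1 / T ^ j := by
  have hT0 : 0 < T := by linarith
  induction j with
  | zero =>
    intro V _ _
    rw [pow_zero, div_one]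
    exact WW_le hT V
  | succ j ih =>
    intro V h0 h1
    have h2 : V < 1 / 2 := by
      refine h1.trans_le ?_
      apply one_div_le_one_div_of_le (by norm_num)
      calc (2 : ℝ) = 2 ^ 1 := (pow_one _).symm
        _ ≤ 2 ^ (j + 1) := pow_le_pow_right₀ (by norm_num) (by omega)
    rw [WW_step hT V, dg_of_lt h0 h2]
    have h3 := ih (2 * V) (by linarith) (by
      rw [lt_div_iff₀ (by positivity)] at h1 ⊢
      rw [pow_succ] at h1
      linarith)
    rw [pow_succ]
    have e : 1 / (T ^ j * T) = (1 / T ^ j) / T := by field_simp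
    rw [e]
    apply div_le_div_of_nonneg_right _ hT0.le
    linarith

/-- positive values -/
lemma WW_pos (j : ℕ) : ∀ V : ℝ, dg ((2 : ℝ) ^ j * V) = 1 → 0 < WW T V := by
  have hT0 : 0 < T := by linarith
  induction j with
  | zero =>
    intro V h
    rw [pow_zero, one_mul] at h
    rw [WW_step hT V, h]
    have := WW_nonneg hT (2 * V)
    have h2 : 0 < (T - 1) * 1 + WW T (2 * V) := by linarith
    positivity
  | succ j ih =>
    intro V h
    have e : (2 : ℝ) ^ (j + 1) * V = (2 : ℝ) ^ j * (2 * V) := by ring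
    rw [e] at h
    have h1 := ih (2 * V) h
    rw [WW_step hT V]
    have h2 := dg_nonneg V
    have h3 : 0 < (T - 1) * dg V + WW T (2 * V) := by nlinarith
    positivity

lemma WW_lt (j : ℕ) : ∀ V : ℝ, dg ((2 : ℝ) ^ j * V) = 0 → WW T V < 1 := by
  have hT0 : 0 < T := by linarith
  induction j with
  | zero =>
    intro V h
    rw [pow_zero, one_mul] at h
    rw [WW_step hT V, h, div_lt_one hT0]
    have := WW_le hT (2 * V)
    linarith
  | succ j ih =>
    intro V h
    have e : (2 : ℝ) ^ (j + 1) * V = (2 : ℝ) ^ j * (2 * V) := by ring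
    rw [e] at h
    have h1 := ih (2 * V) h
    rw [WW_step hT V, div_lt_one hT0]
    have h2 := dg_le V
    nlinarith

omit hT in
lemma exists_one (V : ℝ) (h : Int.fract V ≠ 0) : ∃ j : ℕ, dg ((2 : ℝ) ^ j * V) = 1 := by
  by_contra hc
  push Not at hc
  have h1 : ∀ j : ℕ, Int.fract ((2 : ℝ) ^ j * V) = 2 ^ j * Int.fract V := by
    intro j
    induction j with
    | zero => simp
    | succ j ih =>
      have e : (2 : ℝ) ^ (j + 1) * V = 2 * ((2 : ℝ) ^ j * V) := by ring
      rw [e, fract_two_mul, ih]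
      have h2 : dg ((2 : ℝ) ^ j * V) = 0 := by
        rcases dg_cases ((2 : ℝ) ^ j * V) with h3 | h3
        · exact h3
        · exact absurd h3 (hc j)
      unfold dg at h2
      rw [ih] at h2
      rw [h2]
      ring
  have h0 : 0 < Int.fract V := lt_of_le_of_ne (Int.fract_nonneg _) (Ne.symm h)
  obtain ⟨j, hj⟩ := pow_unbounded_of_one_lt (1 / Int.fract V) (by norm_num : (1 : ℝ) < 2)
  have h2 := h1 j
  have h3 := Int.fract_lt_one ((2 : ℝ) ^ j * V)
  rw [div_lt_iff₀ h0] at hj
  linarith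

omit hT in
lemma exists_zero (V : ℝ) : ∃ j : ℕ, dg ((2 : ℝ) ^ j * V) = 0 := by
  by_contra hc
  push Not at hc
  have h1 : ∀ j : ℕ, 1 - Int.fract ((2 : ℝ) ^ j * V) = 2 ^ j * (1 - Int.fract V) := by
    intro j
    induction j with
    | zero => simp
    | succ j ih =>
      have e : (2 : ℝ) ^ (j + 1) * V = 2 * ((2 : ℝ) ^ j * V) := by ring
      rw [e, fract_two_mul]
      have h2 : dg ((2 : ℝ) ^ j * V) = 1 := by
        rcases dg_cases ((2 : ℝ) ^ j * V) with h3 | h3
        · exact absurd h3 (hc j)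
        · exact h3
      unfold dg at h2
      rw [h2, pow_succ]
      linarith
  have h0 : 0 < 1 - Int.fract V := by linarith [Int.fract_lt_one V]
  obtain ⟨j, hj⟩ := pow_unbounded_of_one_lt (1 / (1 - Int.fract V)) (by norm_num : (1 : ℝ) < 2)
  have h2 := h1 j
  have h3 := Int.fract_nonneg ((2 : ℝ) ^ j * V)
  rw [div_lt_iff₀ h0] at hj
  linarith

lemma WW_lt_one (V : ℝ) : WW T V < 1 := by
  obtain ⟨j, hj⟩ := exists_zero V
  exact WW_lt hT j V hj

/-- the gap -/
lemma WW_gap (V : ℝ) : WW T V ≤ 1 / 4 ∨ 3 / 4 ≤ WW T V := by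
  have hT0 : 0 < T := by linarith
  rw [WW_step hT V]
  have h1 := WW_le hT (2 * V)
  have h2 := WW_nonneg hT (2 * V)
  rcases dg_cases V with h | h
  · left
    rw [h, div_le_iff₀ hT0]
    linarith
  · right
    rw [h, le_div_iff₀ hT0]
    linarith

end

end Pool.Agent.N440.MT
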