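import Pool.Agent.N440.MT.Stage
import Pool.Agent.N915.WT.Wall

/-! # The criterion in base two: limits -/

set_option autoImplicit false

namespace Pool.Agent.N440.MT

open Finset Filter Topology
open Pool.Agent.N915.ML
open Pool.Agent.H534R3.UDist (UD Weyl ud_of_weyl)

/-- the mean of `psi` along `2 ^ n y` is zero -/
def SN (y : ℝ) : Prop :=
  Tendsto (fun N : ℕ => (∑ n ∈ range N, psi ((2 : ℝ) ^ n * y)) / (N : ℝ)) atTop (𝓝 0)

/-- simply normal in base two -/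
def SimplyNormal (y : ℝ) : Prop :=
  Tendsto (fun N : ℕ => (ones y N : ℝ) / (N : ℝ)) atTop (𝓝 (1 / 2))

lemma sn_iff (y : ℝ) : SimplyNormal y ↔ SN y := by
  have hc : Tendsto (fun N : ℕ => (psi y - psi ((2 : ℝ) ^ N * y)) / (N : ℝ)) atTop (𝓝 0) := by
    have h1 : Tendsto (fun N : ℕ => (1 : ℝ) / N) atTop (𝓝 0) := tendsto_const_div_atTop_nhds_zero_nat 1
    refine squeeze_zero_norm (fun N => ?_) h1
    rw [Real.norm_eq_abs, abs_div, abs_of_nonneg (Nat.cast_nonneg N : (0 : ℝ) ≤ N)]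
    apply div_le_div_of_nonneg_right _ (Nat.cast_nonneg _)
    have h3 := psi_abs y
    have h4 := psi_abs ((2 : ℝ) ^ N * y)
    rw [abs_le] at h3 h4 ⊢
    constructor <;> linarith
  have key : ∀ᶠ N : ℕ in atTop, (ones y N : ℝ) / N =
      (∑ n ∈ range N, psi ((2 : ℝ) ^ n * y)) / (N : ℝ) +
      ((psi y - psi ((2 : ℝ) ^ N * y)) / (N : ℝ)) + 1 / 2 := by
    filter_upwards [eventually_gt_atTop 0] with N hN
    have hN' : (N : ℝ) ≠ 0 := by exact_mod_cast hN.ne'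
    have h1 := sum_hf y N
    rw [← ones_eq] at h1
    have h2 : (ones y N : ℝ) = ∑ n ∈ range N, psi ((2 : ℝ) ^ n * y) +
      (psi y - psi ((2 : ℝ) ^ N * y)) + N / 2 := by linarith
    rw [h2]
    generalize ∑ n ∈ range N, psi ((2 : ℝ) ^ n * y) = A
    generalize (psi y - psi ((2 : ℝ) ^ N * y)) = B
    field_simp
  unfold SimplyNormal SN
  constructor
  · intro h
    have h1 := (h.sub hc).sub_const (1 / 2 : ℝ)
    rw [sub_zero, sub_self] at h1
    refine h1.congr' ?_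
    filter_upwards [key] with N hN
    rw [hN]
    ring
  · intro h
    have h1 := (h.add hc).add_const (1 / 2 : ℝ)
    rw [add_zero, zero_add] at h1
    refine h1.congr' ?_
    filter_upwards [key] with N hN
    exact hN.symm

lemma sn_shift (y : ℝ) (i : ℕ) (h : SN y) : SN ((2 : ℝ) ^ i * y) := by
  unfold SN at h ⊢
  have h1 := (tendsto_add_atTop_iff_nat i).2 h
  -- N + i
  have h2 : Tendsto (fun N : ℕ => ((N + i : ℕ) : ℝ) / N) atTop (𝓝 1) := by
    have h3 : Tendsto (fun N : ℕ => 1 + (i : ℝ) / N) atTop (𝓝 (1 + 0)) :=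
      (tendsto_const_div_atTop_nhds_zero_nat (i : ℝ)).const_add 1
    rw [add_zero] at h3
    refine h3.congr' ?_
    filter_upwards [eventually_gt_atTop 0] with N hN
    have hN' : (N : ℝ) ≠ 0 := by exact_mod_cast hN.ne'
    push_cast
    field_simp
  have h3 : Tendsto (fun N : ℕ => (∑ n ∈ range i, psi ((2 : ℝ) ^ n * y)) / (N : ℝ)) atTop (𝓝 0) :=
    tendsto_const_div_atTop_nhds_zero_nat _
  have h4 := (h1.mul h2).sub h3
  norm_num at h4
  refine h4.congr' ?_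
  filter_upwards [eventually_gt_atTop 0] with N hN
  have hN' : (N : ℝ) ≠ 0 := by exact_mod_cast hN.ne'
  have hN2 : ((N : ℝ) + i) ≠ 0 := by positivity
  have e : ∑ n ∈ range (N + i), psi ((2 : ℝ) ^ n * y) = ∑ n ∈ range i, psi ((2 : ℝ) ^ n * y) +
      ∑ n ∈ range N, psi ((2 : ℝ) ^ n * ((2 : ℝ) ^ i * y)) := by
    rw [Nat.add_comm N i, sum_range_add]
    congr 1
    refine sum_congr rfl fun n _ => ?_
    congr 1
    rw [pow_add]
    ring
  rw [e]
  generalize ∑ n ∈ range N, psi ((2 : ℝ) ^ n * ((2 : ℝ) ^ i * y)) = A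
  generalize ∑ n ∈ range i, psi ((2 : ℝ) ^ n * y) = B
  field_simp
  ring

lemma sn_add_int (y : ℝ) (a : ℤ) (h : SN y) : SN (y + a) := by
  unfold SN at h ⊢
  refine h.congr fun N => ?_
  congr 1
  refine sum_congr rfl fun n _ => ?_
  have e : (2 : ℝ) ^ n * (y + a) = (2 : ℝ) ^ n * y + ((2 ^ n * a : ℤ) : ℝ) := by
    push_cast
    ring
  rw [e, psi_add_int]

/-- equidistribution from means of `Phi` -/
theorem ud_of_phi {d : ℕ} (hd : 1 ≤ d) (χ : DirichletCharacter ℂ d) (hχ : χ (-1) = -1) (x : ℝ)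
    (h : ∀ m : ℕ, 1 ≤ m →
      Tendsto (fun N : ℕ => ‖∑ n ∈ range N, Phi (1 : DirichletCharacter ℂ d) ((2 : ℝ) ^ n * (m * x))‖ /
        (N : ℝ)) atTop (𝓝 0) ∧
      Tendsto (fun N : ℕ => ‖∑ n ∈ range N, Phi χ ((2 : ℝ) ^ n * (m * x))‖ / (N : ℝ)) atTop (𝓝 0)) :
    UD fun n => x * (2 : ℝ) ^ n := by
  intro s t h0 h1 h2
  rcases h1.eq_or_lt with hst | hst
  · subst hst
    have e : ∀ N : ℕ, ((((range N).filter fun n => s ≤ Int.fract (x * (2 : ℝ) ^ n) ∧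
        Int.fract (x * (2 : ℝ) ^ n) < s).card : ℕ) : ℝ) / N = 0 := by
      intro N
      rw [filter_eq_empty_iff.2 (fun n _ h => absurd h.1 (not_le.2 h.2))]
      simp
    simp only [e, sub_self]
    exact tendsto_const_nhds
  rw [Metric.tendsto_atTop]
  intro ε hε
  obtain ⟨Q, hQ, δ, hδ, H⟩ := crit' hd χ hχ (ε / 2) (by positivity)
  have hall : ∀ᶠ N : ℕ in atTop, ∀ m ∈ Icc 1 Q,
      ‖∑ n ∈ range N, Phi (1 : DirichletCharacter ℂ d) ((2 : ℝ) ^ n * (m * x))‖ / (N : ℝ) < δ ∧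
      ‖∑ n ∈ range N, Phi χ ((2 : ℝ) ^ n * (m * x))‖ / (N : ℝ) < δ := by
    rw [eventually_all_finset]
    intro m hm
    have h3 := h m (mem_Icc.1 hm).1
    exact (h3.1.eventually (gt_mem_nhds hδ)).and (h3.2.eventually (gt_mem_nhds hδ))
  obtain ⟨N0, hN0⟩ := eventually_atTop.1 (hall.and (eventually_gt_atTop 0))
  refine ⟨N0, fun N hN => ?_⟩
  obtain ⟨h3, h4⟩ := hN0 N hN
  have hNR : (0 : ℝ) < N := by exact_mod_cast h4
  have h5 := H (range N) (fun n => x * (2 : ℝ) ^ n) (fun m hm hmQ => by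
    have h6 := h3 m (mem_Icc.2 ⟨hm, hmQ⟩)
    rw [div_lt_iff₀ hNR, div_lt_iff₀ hNR] at h6
    rw [card_range]
    have e : ∀ n : ℕ, (m : ℝ) * (x * (2 : ℝ) ^ n) = (2 : ℝ) ^ n * (m * x) := fun n => by ring
    simp only [e]
    exact ⟨h6.1.le, h6.2.le⟩) s t h0 hst h2
  rw [card_range] at h5
  rw [Real.dist_eq]
  have e : (((((range N).filter fun n => s ≤ Int.fract (x * (2 : ℝ) ^ n) ∧
        Int.fract (x * (2 : ℝ) ^ n) < t).card : ℕ) : ℝ) / N - (t - s)) =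
      ((vis (range N) (fun n => x * (2 : ℝ) ^ n) s t : ℝ) - (t - s) * N) / N := by
    unfold vis
    field_simp
  rw [e, abs_div, abs_of_pos hNR, div_lt_iff₀ hNR]
  nlinarith

/-- means of `Phi` -/
lemma phi_tendsto {d : ℕ} (hd : 1 ≤ d) (h2 : Nat.Coprime 2 d) (χ : DirichletCharacter ℂ d)
    (hχ : χ 2 = 1) (y : ℝ) (c : ℂ) (hy : SN (d * y))
    (h : ∀ j < d, cf χ j = c ∨ SN (y + j / d)) :
    Tendsto (fun N : ℕ => ‖∑ n ∈ range N, Phi χ ((2 : ℝ) ^ n * y)‖ / (N : ℝ)) atTop (𝓝 0) := by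
  have hd0 : (d : ℝ) ≠ 0 := by exact_mod_cast (by omega : d ≠ 0)
  have hherm : ∀ n : ℕ, ∑ j ∈ range d, psi ((2 : ℝ) ^ n * (y + j / d)) =
      psi ((2 : ℝ) ^ n * (d * y)) := by
    intro n
    have h3 := Pool.Agent.N915.WT.hermite (M := d) (by omega) ((2 : ℝ) ^ n * y)
    have hu : Nat.Coprime (2 ^ n) d := Nat.Coprime.pow_left n h2
    have h4 := sum_mul_mod d hd (2 ^ n) hu
      (fun j => ((psi ((2 : ℝ) ^ n * y + j / d) : ℝ) : ℂ)) (fun k => by rw [psi_per d hd])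
    have h5 : ∑ j ∈ range d, ((psi ((2 : ℝ) ^ n * (y + j / d)) : ℝ) : ℂ) =
        ∑ j ∈ range d, ((psi ((2 : ℝ) ^ n * y + j / d) : ℝ) : ℂ) := by
      rw [← h4]
      refine sum_congr rfl fun j _ => ?_
      congr 2
      push_cast
      ring
    have h6 : ∑ j ∈ range d, psi ((2 : ℝ) ^ n * (y + j / d)) =
        ∑ j ∈ range d, psi ((2 : ℝ) ^ n * y + j / d) := by exact_mod_cast h5
    rw [h6]
    unfold psi
    rw [sum_sub_distrib, h3, sum_const, card_range, nsmul_eq_mul]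
    have e : (d : ℝ) * ((2 : ℝ) ^ n * y) = (2 : ℝ) ^ n * (d * y) := by ring
    rw [e]
    ring
  have e : ∀ N : ℕ, ∑ n ∈ range N, Phi χ ((2 : ℝ) ^ n * y) =
      ∑ j ∈ range d, (cf χ j - c) * ((∑ n ∈ range N, psi ((2 : ℝ) ^ n * (y + j / d)) : ℝ) : ℂ) +
      c * ((∑ n ∈ range N, psi ((2 : ℝ) ^ n * (d * y)) : ℝ) : ℂ) := by
    intro N
    have h1 : ∑ n ∈ range N, psi ((2 : ℝ) ^ n * (d * y)) =
        ∑ j ∈ range d, ∑ n ∈ range N, psi ((2 : ℝ) ^ n * (y + j / d)) := by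
      rw [sum_comm]
      exact sum_congr rfl fun n _ => (hherm n).symm
    rw [h1]
    push_cast
    rw [mul_sum, ← sum_add_distrib]
    rw [sum_congr rfl fun n _ => Phi_pow χ hd h2 hχ n y, sum_comm]
    refine sum_congr rfl fun j _ => ?_
    rw [← add_mul, sub_add_cancel, mul_sum]
  have key : Tendsto (fun N : ℕ => ∑ j ∈ range d, (cf χ j - c) *
      (((∑ n ∈ range N, psi ((2 : ℝ) ^ n * (y + j / d))) / N : ℝ) : ℂ) +
      c * (((∑ n ∈ range N, psi ((2 : ℝ) ^ n * (d * y))) / N : ℝ) : ℂ)) atTop (𝓝 0) := by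
    have h7 : Tendsto (fun N : ℕ => c * (((∑ n ∈ range N, psi ((2 : ℝ) ^ n * (d * y))) / N : ℝ) : ℂ))
        atTop (𝓝 (c * ((0 : ℝ) : ℂ))) :=
      (Tendsto.comp (Complex.continuous_ofReal.tendsto 0) hy).const_mul c
    have h8 : Tendsto (fun N : ℕ => ∑ j ∈ range d, (cf χ j - c) *
      (((∑ n ∈ range N, psi ((2 : ℝ) ^ n * (y + j / d))) / N : ℝ) : ℂ)) atTop
        (𝓝 (∑ j ∈ range d, 0)) := by
      refine tendsto_finsetSum _ fun j hj => ?_
      rcases h j (mem_range.1 hj) with h9 | h9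
      · rw [h9]
        simp only [sub_self, zero_mul]
        exact tendsto_const_nhds
      · have h10 : Tendsto (fun N : ℕ => (cf χ j - c) *
            (((∑ n ∈ range N, psi ((2 : ℝ) ^ n * (y + j / d))) / N : ℝ) : ℂ)) atTop
            (𝓝 ((cf χ j - c) * ((0 : ℝ) : ℂ))) :=
          (Tendsto.comp (Complex.continuous_ofReal.tendsto 0) h9).const_mul _
        simpa using h10
    have h9 := h8.add h7
    simpa using h9
  have h11 := key.norm
  rw [norm_zero] at h11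
  refine h11.congr fun N => ?_
  rw [e N]
  have e2 : ∑ j ∈ range d, (cf χ j - c) *
      (((∑ n ∈ range N, psi ((2 : ℝ) ^ n * (y + j / d))) / N : ℝ) : ℂ) +
      c * (((∑ n ∈ range N, psi ((2 : ℝ) ^ n * (d * y))) / N : ℝ) : ℂ) =
      (∑ j ∈ range d, (cf χ j - c) *
      ((∑ n ∈ range N, psi ((2 : ℝ) ^ n * (y + j / d)) : ℝ) : ℂ) +
      c * ((∑ n ∈ range N, psi ((2 : ℝ) ^ n * (d * y)) : ℝ) : ℂ)) / (N : ℂ) := by
    have hc : ∀ A : ℝ, ((A / N : ℝ) : ℂ) = (A : ℂ) / (N : ℂ) := fun A => by push_cast; rfl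
    simp only [hc]
    rw [add_div, Finset.sum_div (range d) _ (N : ℂ), mul_div_assoc]
    congr 1
    refine sum_congr rfl fun j _ => ?_
    rw [mul_div_assoc]
  rw [e2, norm_div, Complex.norm_natCast]

end Pool.Agent.N440.MT
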