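import Pool.Agent.N440.MT.Rep

/-! # A number which is not normal but whose rational translates are simply normal -/

set_option autoImplicit false

namespace Pool.Agent.N440.MT

open Finset Filter Topology
open Pool.Agent.N915.ML
open Pool.Agent.H534R3.UDist (UD Weyl ud_of_weyl)

/-- uniformly distributed sequences visit every interval -/
lemma ud_visit {u : ℕ → ℝ} (hu : UD u) {s t : ℝ} (h0 : 0 ≤ s) (h1 : s < t) (h2 : t ≤ 1) :
    ∃ n, s ≤ Int.fract (u n) ∧ Int.fract (u n) < t := by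
  by_contra hc
  push Not at hc
  have h3 := hu s t h0 h1.le h2
  have h4 : ∀ N : ℕ, ((((range N).filter fun n => s ≤ Int.fract (u n) ∧
      Int.fract (u n) < t).card : ℕ) : ℝ) / N = 0 := by
    intro N
    rw [filter_eq_empty_iff.2 (fun n _ h => absurd (hc n h.1) (not_le.2 h.2))]
    simp
  simp only [h4] at h3
  have h5 := tendsto_nhds_unique h3 tendsto_const_nhds
  linarith

lemma irr_of_ud {v : ℝ} (hu : UD fun n => (2 : ℝ) ^ n * v) : Irrational v := by
  rintro ⟨r, hr⟩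
  have hq : (0 : ℝ) < r.den := by exact_mod_cast r.pos
  obtain ⟨n, h1, h2⟩ := ud_visit hu (s := 1 / (2 * r.den)) (t := 1 / r.den) (by positivity)
    (by
      apply one_div_lt_one_div_of_lt hq
      linarith)
    (by
      rw [div_le_one hq]
      exact_mod_cast r.pos)
  have h3 : (r.den : ℝ) * ((2 : ℝ) ^ n * v) = ((2 ^ n * r.num : ℤ) : ℝ) := by
    rw [← hr]
    have h4 : (r.den : ℝ) * (r : ℝ) = r.num := by exact_mod_cast Rat.den_mul_eq_num r
    push_cast
    linear_combination (2 : ℝ) ^ n * h4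
  have h4 : (r.den : ℝ) * Int.fract ((2 : ℝ) ^ n * v) =
      ((2 ^ n * r.num - r.den * ⌊(2 : ℝ) ^ n * v⌋ : ℤ) : ℝ) := by
    rw [Int.fract, mul_sub, h3]
    push_cast
    ring
  have h5 : 0 < (r.den : ℝ) * Int.fract ((2 : ℝ) ^ n * v) := by
    have : 0 < 1 / (2 * (r.den : ℝ)) := by positivity
    have h6 : 0 < Int.fract ((2 : ℝ) ^ n * v) := by linarith
    positivity
  have h6 : (r.den : ℝ) * Int.fract ((2 : ℝ) ^ n * v) < 1 := by
    rw [lt_div_iff₀ hq] at h2
    linarith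
  rw [h4] at h5 h6
  have h7 : 0 < (2 ^ n * r.num - r.den * ⌊(2 : ℝ) ^ n * v⌋ : ℤ) := by exact_mod_cast h5
  have h8 : (2 ^ n * r.num - r.den * ⌊(2 : ℝ) ^ n * v⌋ : ℤ) < 1 := by exact_mod_cast h6
  omega

lemma irr_WW {T : ℤ} (hT : 4 ≤ (T : ℝ)) {v : ℝ} (hu : UD fun n => (2 : ℝ) ^ n * v) :
    Irrational (WW T v) := by
  have hT0 : (0 : ℝ) < T := by linarith
  have hv := irr_of_ud hu
  rintro ⟨r, hr⟩
  have hq : (0 : ℝ) < r.den := by exact_mod_cast r.pos
  obtain ⟨j, hj⟩ := exists_pow_lt_of_lt_one (show 0 < 1 / (r.den : ℝ) by positivity)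
    (show 1 / (T : ℝ) < 1 by rw [div_lt_one hT0]; linarith)
  obtain ⟨k, h1, h2⟩ := ud_visit hu (s := 0) (t := 1 / 2 ^ j) le_rfl (by positivity)
    (by
      rw [div_le_one (by positivity)]
      exact one_le_pow₀ (by norm_num))
  have hirr : Irrational ((2 : ℝ) ^ k * v) := by
    have := hv.natCast_mul (m := 2 ^ k) (by positivity)
    push_cast at this
    exact this
  have hne : Int.fract ((2 : ℝ) ^ k * v) ≠ 0 := by
    intro h3
    have h4 := Int.floor_add_fract ((2 : ℝ) ^ k * v)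
    rw [h3, add_zero] at h4
    exact hirr ⟨⌊(2 : ℝ) ^ k * v⌋, by rw [← h4]; simp⟩
  obtain ⟨i, hi⟩ := exists_one _ hne
  have hpos := WW_pos hT i _ hi
  have hsm := WW_small hT j _ h1 h2
  rw [WW_fract] at hsm
  rw [one_div_pow] at hj
  obtain ⟨z, hz⟩ := WW_pow hT v k
  rw [← hr] at hz
  have h3 : (r.den : ℝ) * WW T ((2 : ℝ) ^ k * v) = ((T ^ k * r.num - r.den * z : ℤ) : ℝ) := by
    have h4 : (r.den : ℝ) * (r : ℝ) = r.num := by exact_mod_cast Rat.den_mul_eq_num r
    push_cast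
    linear_combination (T : ℝ) ^ k * h4 - (r.den : ℝ) * hz
  have h5 : 0 < (r.den : ℝ) * WW T ((2 : ℝ) ^ k * v) := by positivity
  have h6 : (r.den : ℝ) * WW T ((2 : ℝ) ^ k * v) < 1 := by
    have h7 : WW T ((2 : ℝ) ^ k * v) < 1 / r.den := lt_of_le_of_lt hsm hj
    rw [lt_div_iff₀ hq] at h7
    linarith
  rw [h3] at h5 h6
  have h7 : 0 < (T ^ k * r.num - r.den * z : ℤ) := by exact_mod_cast h5
  have h8 : (T ^ k * r.num - r.den * z : ℤ) < 1 := by exact_mod_cast h6
  omega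

/-- the number is not normal -/
lemma WW_not_normal (t : ℕ) (ht : 2 ≤ t) (v : ℝ) : ¬ NormalTwo (WW ((2 ^ t : ℤ) : ℝ) v) := by
  have hT : 4 ≤ (((2 ^ t : ℤ)) : ℝ) := by
    push_cast
    calc (4 : ℝ) = 2 ^ 2 := by norm_num
      _ ≤ 2 ^ t := pow_le_pow_right₀ (by norm_num) ht
  intro h
  rw [normal_iff_ud] at h
  obtain ⟨n, h1, h2⟩ := ud_visit h (s := 1 / 4) (t := 3 / 8) (by norm_num) (by norm_num)
    (by norm_num)
  set k := n / t with hk
  set s := n % t with hs
  have hn : n = t * k + s := (Nat.div_add_mod n t).symm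
  have hst : s < t := Nat.mod_lt _ (by omega)
  obtain ⟨z, hz⟩ := WW_pow hT v k
  have hstep := WW_step hT ((2 : ℝ) ^ k * v)
  have e1 : (2 : ℝ) * ((2 : ℝ) ^ k * v) = (2 : ℝ) ^ (k + 1) * v := by ring
  rw [e1] at hstep
  set w := WW ((2 ^ t : ℤ) : ℝ) ((2 : ℝ) ^ (k + 1) * v) with hw
  have hw0 : 0 ≤ w := WW_nonneg hT _
  have hw1 : w < 1 := WW_lt_one hT _
  have hw2 : w ≤ 1 / 4 ∨ 3 / 4 ≤ w := WW_gap hT _
  set q : ℝ := 1 / 2 ^ (t - s) with hq
  have hq0 : 0 < q := by positivity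
  have hT2 : (((2 ^ t : ℤ)) : ℝ) = 2 ^ s * 2 ^ (t - s) := by
    push_cast
    rw [← pow_add]
    congr 1
    omega
  have e2 : WW ((2 ^ t : ℤ) : ℝ) v * (2 : ℝ) ^ n = 2 ^ s * (((2 ^ t : ℤ) : ℝ) ^ k *
      WW ((2 ^ t : ℤ) : ℝ) v) := by
    rw [hn, pow_add, pow_mul]
    push_cast
    ring
  obtain ⟨D, hD, hD2⟩ : ∃ D : ℤ, dg ((2 : ℝ) ^ k * v) = D ∧ (D = 0 ∨ D = 1) := by
    rcases dg_cases ((2 : ℝ) ^ k * v) with h | h
    · exact ⟨0, by rw [h]; simp, Or.inl rfl⟩
    · exact ⟨1, by rw [h]; simp, Or.inr rfl⟩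
  have e3 : WW ((2 ^ t : ℤ) : ℝ) v * (2 : ℝ) ^ n = q * (w - D) + ((2 ^ s * (z + D) : ℤ) : ℝ) := by
    rw [e2, hz, hstep, hD, hT2, hq]
    push_cast
    field_simp
    ring
  rw [e3, Int.fract_add_intCast] at h1 h2
  rcases hD2 with h3 | h3
  · rw [h3] at h1 h2
    push_cast at h1 h2
    rw [sub_zero] at h1 h2
    have hq1 : q ≤ 1 / 2 := by
      rw [hq]
      apply one_div_le_one_div_of_le (by norm_num)
      calc (2 : ℝ) = 2 ^ 1 := (pow_one _).symm
        _ ≤ 2 ^ (t - s) := pow_le_pow_right₀ (by norm_num) (by omega)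
    have h4 : 0 ≤ q * w := by positivity
    have h5 : q * w < 1 := by nlinarith
    rw [Int.fract_eq_self.2 ⟨h4, h5⟩] at h1 h2
    rcases Nat.lt_or_ge (t - s) 2 with h6 | h6
    · have h7 : t - s = 1 := by omega
      have h8 : q = 1 / 2 := by rw [hq, h7]; norm_num
      rw [h8] at h1 h2
      rcases hw2 with h9 | h9 <;> linarith
    · have h7 : q ≤ 1 / 4 := by
        rw [hq]
        apply one_div_le_one_div_of_le (by norm_num)
        calc (4 : ℝ) = 2 ^ 2 := by norm_num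
          _ ≤ 2 ^ (t - s) := pow_le_pow_right₀ (by norm_num) h6
      nlinarith
  · rw [h3] at h1 h2
    push_cast at h1 h2
    have hq1 : q ≤ 1 / 2 := by
      rw [hq]
      apply one_div_le_one_div_of_le (by norm_num)
      calc (2 : ℝ) = 2 ^ 1 := (pow_one _).symm
        _ ≤ 2 ^ (t - s) := pow_le_pow_right₀ (by norm_num) (by omega)
    have e4 : q * (w - 1) = (1 - q * (1 - w)) + ((-1 : ℤ) : ℝ) := by
      push_cast
      ring
    rw [e4, Int.fract_add_intCast] at h1 h2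
    have h4 : q * (1 - w) ≤ 1 / 2 := by nlinarith
    have h5 : 0 < q * (1 - w) := by
      have : 0 < 1 - w := by linarith
      positivity
    rw [Int.fract_eq_self.2 ⟨by linarith, by linarith⟩] at h1 h2
    linarith

/-- the indicator of the upper half as a difference of monotone functions -/
lemma hf_floor (y : ℝ) : hf y = (⌊2 * y⌋ : ℝ) - 2 * (⌊y⌋ : ℝ) - 1 / 2 := by
  have h0 := Int.fract_nonneg y
  have h1 := Int.fract_lt_one y
  have e : y = ⌊y⌋ + Int.fract y := (Int.floor_add_fract y).symm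
  unfold hf
  split_ifs with h
  · have h2 : ⌊2 * y⌋ = 2 * ⌊y⌋ + 1 := by
      rw [Int.floor_eq_iff]
      push_cast
      constructor <;> linarith
    rw [h2]
    push_cast
    ring
  · push Not at h
    have h2 : ⌊2 * y⌋ = 2 * ⌊y⌋ := by
      rw [Int.floor_eq_iff]
      push_cast
      constructor <;> linarith
    rw [h2]
    push_cast
    ring

lemma hf_add_int (y : ℝ) (z : ℤ) : hf (y + z) = hf y := by
  unfold hf
  rw [Int.fract_add_intCast]

lemma hf_neg (y : ℝ) (h : Irrational y) : hf (-y) = -hf y := by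
  have hne : Int.fract y ≠ 0 := by
    intro h3
    have h4 := Int.floor_add_fract y
    rw [h3, add_zero] at h4
    exact h ⟨⌊y⌋, by rw [← h4]; simp⟩
  have hne2 : Int.fract y ≠ 1 / 2 := by
    intro h3
    have h4 := Int.floor_add_fract y
    rw [h3] at h4
    exact h ⟨⌊y⌋ + 1 / 2, by push_cast; exact h4⟩
  unfold hf
  rw [Int.fract_neg hne]
  rcases lt_or_gt_of_ne hne2 with h3 | h3
  · rw [if_pos (by linarith), if_neg (by linarith)]
    norm_num
  · rw [if_neg (by linarith), if_pos (by linarith)]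
    norm_num

/-- means of the first digit of `M W + Y` agree along uniformly distributed sequences -/
lemma hf_mean {T : ℝ} (hT : 4 ≤ T) (M : ℕ) (Y : ℝ) (u u' : ℕ → ℝ) (hu : UD u) (hu' : UD u') :
    Tendsto (fun N : ℕ => (∑ n ∈ range N, (hf (M * WW T (u n) + Y) - hf (M * WW T (u' n) + Y))) /
      (N : ℝ)) atTop (𝓝 0) := by
  have hM : (0 : ℝ) ≤ M := Nat.cast_nonneg _
  have h1 := mono_mean (fun V => (⌊2 * (M * WW T V + Y)⌋ : ℝ)) (fun V hV V' hV' h => by
    have h3 := WW_mono hT hV hV' h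
    have h4 : 2 * (M * WW T V + Y) ≤ 2 * (M * WW T V' + Y) := by nlinarith
    simp only
    exact_mod_cast Int.floor_mono h4) (2 * (M + Y)) (fun V _ => by
      have h3 := WW_le hT V
      refine (Int.floor_le _).trans ?_
      nlinarith) u u' hu hu'
  have h2 := mono_mean (fun V => (⌊M * WW T V + Y⌋ : ℝ)) (fun V hV V' hV' h => by
    have h3 := WW_mono hT hV hV' h
    have h4 : M * WW T V + Y ≤ M * WW T V' + Y := by nlinarith
    simp only
    exact_mod_cast Int.floor_mono h4) (M + Y) (fun V _ => by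
      have h3 := WW_le hT V
      refine (Int.floor_le _).trans ?_
      nlinarith) u u' hu hu'
  have h3 := h1.sub (h2.const_mul 2)
  rw [mul_zero, sub_zero] at h3
  refine h3.congr fun N => ?_
  simp only [WW_fract]
  rw [mul_div_assoc', ← sub_div]
  congr 1
  have e : ∀ n ∈ range N, hf (M * WW T (u n) + Y) - hf (M * WW T (u' n) + Y) =
      ((⌊2 * (M * WW T (u n) + Y)⌋ : ℝ) - (⌊2 * (M * WW T (u' n) + Y)⌋ : ℝ)) -
      2 * ((⌊M * WW T (u n) + Y⌋ : ℝ) - (⌊M * WW T (u' n) + Y⌋ : ℝ)) := by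
    intro n _
    rw [hf_floor, hf_floor]
    ring
  rw [sum_congr rfl e, sum_sub_distrib, sum_sub_distrib, ← mul_sum, sum_sub_distrib]

end Pool.Agent.N440.MT
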