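import Pool.Agent.N440.MT.Core

/-! # The criterion in base two: one stage -/

set_option autoImplicit false

namespace Pool.Agent.N440.MT

open Finset Filter Topology
open Pool.Agent.N915.ML
open Pool.Agent.H807R2.Dav (ee norm_ee ee_add ee_zero ee_int ee_add_int ee_pow ee_eq)

/-- exponential sums from the functions `Phi` of an even and an odd character -/
lemma weyl' {d : ℕ} (hd : 1 ≤ d) (χ : DirichletCharacter ℂ d) (hχ : χ (-1) = -1) (w : ℝ)
    (hw : 0 < w) : ∃ M : ℕ, 1 ≤ M ∧ ∃ δ : ℝ, 0 < δ ∧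
    ∀ {ι : Type} (S : Finset ι) (u : ι → ℝ),
      (∀ m : ℕ, 1 ≤ m → m ≤ M → ‖∑ n ∈ S, Phi (1 : DirichletCharacter ℂ d) (m * u n)‖ ≤ δ * S.card ∧
        ‖∑ n ∈ S, Phi χ (m * u n)‖ ≤ δ * S.card) →
      ‖∑ n ∈ S, ee (u n)‖ ≤ w * S.card := by
  obtain ⟨M1, h1, δ1, hδ1, H1⟩ := LL_sum' (1 : DirichletCharacter ℂ d) hd (w / 8) (by positivity)
  obtain ⟨M2, h2, δ2, hδ2, H2⟩ := LL_sum' χ hd (w / 8) (by positivity)
  refine ⟨max M1 M2, h1.trans (le_max_left _ _), min δ1 δ2, lt_min hδ1 hδ2, fun S u hS => ?_⟩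
  have g1 := H1 S u fun m hm hm2 => (hS m hm (hm2.trans (le_max_left _ _))).1.trans
    (mul_le_mul_of_nonneg_right (min_le_left _ _) (Nat.cast_nonneg _))
  have g2 := H2 S u fun m hm hm2 => (hS m hm (hm2.trans (le_max_right _ _))).2.trans
    (mul_le_mul_of_nonneg_right (min_le_right _ _) (Nat.cast_nonneg _))
  have hone : (1 : DirichletCharacter ℂ d) (-1) = 1 :=
    MulChar.one_apply (IsUnit.neg isUnit_one)
  have e : ∑ n ∈ S, ee (u n) = (Real.pi / Complex.I) *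
      (∑ n ∈ S, LL (1 : DirichletCharacter ℂ d) (u n) + ∑ n ∈ S, LL χ (u n)) := by
    rw [← sum_add_distrib, mul_sum]
    refine sum_congr rfl fun n _ => ?_
    unfold LL
    rw [hone, hχ]
    have hpi : (Real.pi : ℂ) ≠ 0 := by exact_mod_cast Real.pi_pos.ne'
    have hI : Complex.I ≠ 0 := Complex.I_ne_zero
    field_simp
    ring
  rw [e, norm_mul]
  have h3 : ‖(Real.pi / Complex.I : ℂ)‖ ≤ 4 := by
    rw [norm_div, Complex.norm_I, div_one, Complex.norm_real, Real.norm_of_nonneg Real.pi_pos.le]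
    linarith [Real.pi_lt_four]
  have h4 := norm_add_le (∑ n ∈ S, LL (1 : DirichletCharacter ℂ d) (u n)) (∑ n ∈ S, LL χ (u n))
  calc _ ≤ 4 * (w / 4 * S.card) := by
        apply mul_le_mul h3 _ (norm_nonneg _) (by norm_num)
        linarith
    _ = _ := by ring

/-- the criterion -/
theorem crit' {d : ℕ} (hd : 1 ≤ d) (χ : DirichletCharacter ℂ d) (hχ : χ (-1) = -1) (ε : ℝ)
    (hε : 0 < ε) : ∃ Q : ℕ, 1 ≤ Q ∧ ∃ δ : ℝ, 0 < δ ∧
    ∀ {ι : Type} (S : Finset ι) (u : ι → ℝ),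
      (∀ m : ℕ, 1 ≤ m → m ≤ Q → ‖∑ n ∈ S, Phi (1 : DirichletCharacter ℂ d) (m * u n)‖ ≤ δ * S.card ∧
        ‖∑ n ∈ S, Phi χ (m * u n)‖ ≤ δ * S.card) →
      ∀ s t : ℝ, 0 ≤ s → s < t → t ≤ 1 → |(vis S u s t : ℝ) - (t - s) * S.card| ≤ ε * S.card := by
  obtain ⟨K, hK⟩ := exists_nat_gt (max 1 (64 / ε ^ 2))
  have hK1 : (1 : ℝ) < K := lt_of_le_of_lt (le_max_left _ _) hK
  have hK2 : 64 / ε ^ 2 < K := lt_of_le_of_lt (le_max_right _ _) hK
  have hK0 : (0 : ℝ) < K := by linarith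
  have hK1' : 1 ≤ K := by exact_mod_cast hK1.le
  set w : ℝ := ε / (4 * K) with hw
  obtain ⟨M, hM, δ, hδ, H⟩ := weyl' hd χ hχ w (by positivity)
  refine ⟨K * M, Nat.mul_pos (by omega) (by omega), δ, hδ, fun S u hS s t h0 h1 h2 => ?_⟩
  have hT : ∀ h : ℕ, 1 ≤ h → h ≤ K → ‖∑ n ∈ S, ee (h * u n)‖ ≤ w * S.card := by
    intro h hh hhK
    refine H S (fun n => h * u n) fun m hm hmM => ?_
    have h3 := hS (m * h) (Nat.mul_pos (by omega) (by omega))
      (by rw [mul_comm]; exact Nat.mul_le_mul hhK hmM)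
    push_cast at h3
    simp only [mul_assoc] at h3
    exact h3
  refine (disc_gen S u K hK1' _ hT s t h0 h1 h2).trans ?_
  have h3 : 2 * (K * (w * (S.card : ℝ))) = ε / 2 * S.card := by
    rw [hw]
    field_simp
    norm_num
  have h4 : 2 * (2 * (S.card : ℝ) / √K) ≤ ε / 2 * S.card := by
    have h7 : 8 / ε ≤ √(K : ℝ) := by
      apply Real.le_sqrt_of_sq_le
      have : (8 / ε) ^ 2 = 64 / ε ^ 2 := by ring
      rw [this]
      exact hK2.le
    have hsK : 0 < √(K : ℝ) := Real.sqrt_pos.2 hK0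
    have h8 : 2 * (2 * (S.card : ℝ) / √K) = 4 * S.card / √K := by ring
    rw [h8, div_le_iff₀ hsK]
    rw [div_le_iff₀ hε] at h7
    have h9 : (0 : ℝ) ≤ S.card := Nat.cast_nonneg _
    nlinarith
  linarith

/-! ### Digits in base two -/

/-- `1/2` if the first digit of the fractional part is one, `-1/2` if not -/
noncomputable def hf (y : ℝ) : ℝ := (if 1 / 2 ≤ Int.fract y then 1 else 0) - 1 / 2

lemma fract_two_mul (y : ℝ) : Int.fract (2 * y) =
    2 * Int.fract y - (if 1 / 2 ≤ Int.fract y then 1 else 0) := by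
  have h0 := Int.fract_nonneg y
  have h1 := Int.fract_lt_one y
  have e : y = ⌊y⌋ + Int.fract y := (Int.floor_add_fract y).symm
  split_ifs with h
  · rw [Int.fract_eq_iff]
    refine ⟨by linarith, by linarith, 2 * ⌊y⌋ + 1, ?_⟩
    push_cast
    linarith
  · rw [Int.fract_eq_iff]
    push Not at h
    refine ⟨by linarith, by linarith, 2 * ⌊y⌋, ?_⟩
    push_cast
    linarith

lemma hf_eq (y : ℝ) : hf y = 2 * psi y - psi (2 * y) := by
  unfold hf psi
  rw [fract_two_mul]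
  ring

lemma sum_hf (y : ℝ) (N : ℕ) : ∑ n ∈ range N, hf ((2 : ℝ) ^ n * y) =
    ∑ n ∈ range N, psi ((2 : ℝ) ^ n * y) + psi y - psi ((2 : ℝ) ^ N * y) := by
  induction N with
  | zero => simp
  | succ N ih =>
    rw [sum_range_succ, sum_range_succ, ih, hf_eq]
    have e : (2 : ℝ) * ((2 : ℝ) ^ N * y) = (2 : ℝ) ^ (N + 1) * y := by ring
    rw [e]
    ring

/-- the number of ones among the first `N` binary digits after the point -/
noncomputable def ones (y : ℝ) (N : ℕ) : ℕ := ((Icc 1 N).filter fun i => ⌊y * 2 ^ i⌋ % 2 = 1).card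

lemma floor_two (y : ℝ) : ⌊y * 2⌋ % 2 = 1 ↔ 1 / 2 ≤ Int.fract y := by
  have h0 := Int.fract_nonneg y
  have h1 := Int.fract_lt_one y
  have e : y = ⌊y⌋ + Int.fract y := (Int.floor_add_fract y).symm
  constructor
  · intro h
    by_contra hc
    push Not at hc
    have : ⌊y * 2⌋ = 2 * ⌊y⌋ := by
      rw [Int.floor_eq_iff]
      push_cast
      constructor <;> linarith
    omega
  · intro h
    have : ⌊y * 2⌋ = 2 * ⌊y⌋ + 1 := by
      rw [Int.floor_eq_iff]
      push_cast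
      constructor <;> linarith
    omega

lemma ones_eq (y : ℝ) (N : ℕ) : (ones y N : ℝ) - N / 2 = ∑ n ∈ range N, hf ((2 : ℝ) ^ n * y) := by
  classical
  have h1 : ones y N = ((range N).filter fun n => 1 / 2 ≤ Int.fract ((2 : ℝ) ^ n * y)).card := by
    unfold ones
    refine (card_bij (fun n _ => n + 1) ?_ ?_ ?_).symm
    · intro n hn
      rw [mem_filter, mem_range] at hn
      rw [mem_filter, mem_Icc]
      refine ⟨⟨by omega, by omega⟩, ?_⟩
      have h2 := (floor_two _).2 hn.2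
      rw [pow_succ]
      rw [show y * ((2 : ℝ) ^ n * 2) = (2 : ℝ) ^ n * y * 2 by ring]
      exact h2
    · intro a _ c _ h1
      simpa using h1
    · intro i hi
      rw [mem_filter, mem_Icc] at hi
      obtain ⟨⟨h1, h2⟩, h3⟩ := hi
      refine ⟨i - 1, ?_, by omega⟩
      rw [mem_filter, mem_range]
      refine ⟨by omega, ?_⟩
      rw [← floor_two]
      have e : (2 : ℝ) ^ (i - 1) * y * 2 = y * 2 ^ i := by
        have : i = i - 1 + 1 := by omega
        conv_rhs => rw [this, pow_succ]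
        ring
      rw [e]
      exact h3
  rw [h1, card_filter]
  unfold hf
  rw [sum_sub_distrib, sum_const, card_range, nsmul_eq_mul]
  push_cast
  ring

lemma sum_psi_bound (y : ℝ) (N : ℕ) :
    |∑ n ∈ range N, psi ((2 : ℝ) ^ n * y)| ≤ |(ones y N : ℝ) - N / 2| + 1 := by
  have h1 := sum_hf y N
  rw [← ones_eq] at h1
  have h2 : ∑ n ∈ range N, psi ((2 : ℝ) ^ n * y) = ((ones y N : ℝ) - N / 2) -
      psi y + psi ((2 : ℝ) ^ N * y) := by linarith
  rw [h2]
  have h3 := psi_abs y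
  have h4 := psi_abs ((2 : ℝ) ^ N * y)
  rw [abs_le] at h3 h4
  have h5 := abs_nonneg ((ones y N : ℝ) - N / 2)
  have h6 := le_abs_self ((ones y N : ℝ) - N / 2)
  have h7 := neg_abs_le ((ones y N : ℝ) - N / 2)
  rw [abs_le]
  constructor <;> linarith

lemma ones_bound (y : ℝ) (N : ℕ) :
    |(ones y N : ℝ) - N / 2| ≤ |∑ n ∈ range N, psi ((2 : ℝ) ^ n * y)| + 1 := by
  have h1 := sum_hf y N
  rw [← ones_eq] at h1
  rw [h1]
  have h3 := psi_abs y
  have h4 := psi_abs ((2 : ℝ) ^ N * y)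
  rw [abs_le] at h3 h4
  have h6 := le_abs_self (∑ n ∈ range N, psi ((2 : ℝ) ^ n * y))
  have h7 := neg_abs_le (∑ n ∈ range N, psi ((2 : ℝ) ^ n * y))
  rw [abs_le]
  constructor <;> linarith

/-- sums of `Phi χ` from the translates by multiples of `1 / d` -/
lemma Phi_bound {d : ℕ} (hd : 1 ≤ d) (h2 : Nat.Coprime 2 d) (χ : DirichletCharacter ℂ d)
    (hχ : χ 2 = 1) (y : ℝ) (N : ℕ) (B : ℝ)
    (hB : ∀ a < d, |∑ n ∈ range N, psi ((2 : ℝ) ^ n * (y + a / d))| ≤ B) :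
    ‖∑ n ∈ range N, Phi χ ((2 : ℝ) ^ n * y)‖ ≤ AA χ * B := by
  have e : ∑ n ∈ range N, Phi χ ((2 : ℝ) ^ n * y) = ∑ j ∈ range d, cf χ j *
      ((∑ n ∈ range N, psi ((2 : ℝ) ^ n * (y + j / d)) : ℝ) : ℂ) := by
    rw [sum_congr rfl fun n _ => Phi_pow χ hd h2 hχ n y, sum_comm]
    refine sum_congr rfl fun j _ => ?_
    push_cast
    rw [mul_sum]
  rw [e]
  refine (norm_sum_le _ _).trans ?_
  unfold AA
  rw [sum_mul]
  refine sum_le_sum fun j hj => ?_
  rw [norm_mul, Complex.norm_real, Real.norm_eq_abs]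
  exact mul_le_mul_of_nonneg_left (hB j (mem_range.1 hj)) (norm_nonneg _)

end Pool.Agent.N440.MT
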